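import Pool.Agent.W775.Berg8

/-!
From the area orthogonality to the one-dimensional orthogonality.
-/

set_option autoImplicit false

open Polynomial MeasureTheory Set

namespace Pool.Agent.W775.Berg

variable {ω : ℂ} {N : ℕ}

lemma integrable_poly (hN : 0 < N) (F : ℂ → ℂ) (hF : Continuous F) :
    Integrable F (volume.restrict (KK N)) :=
  hF.continuousOn.integrableOn_compact (isCompact_KK hN)

lemma B_expand (hN : 0 < N) (p r : ℂ[X]) (n n' : ℕ) (hp : p.natDegree < n) (hr : r.natDegree < n') :
    ∫ z in KK N, p.eval z * (starRingEnd ℂ) (r.eval z) =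
      ∑ i ∈ Finset.range n, ∑ l ∈ Finset.range n', p.coeff i * (starRingEnd ℂ) (r.coeff l) *
        ∫ z in KK N, z ^ i * (starRingEnd ℂ) (z ^ l) := by
  have hc : ∀ i l : ℕ, Continuous fun z : ℂ => z ^ i * (starRingEnd ℂ) (z ^ l) := fun i l =>
    (continuous_pow i).mul (Complex.continuous_conj.comp (continuous_pow l))
  have h1 : ∀ z : ℂ, p.eval z * (starRingEnd ℂ) (r.eval z) =
      ∑ i ∈ Finset.range n, ∑ l ∈ Finset.range n', p.coeff i * (starRingEnd ℂ) (r.coeff l) *
        (z ^ i * (starRingEnd ℂ) (z ^ l)) := by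
    intro z
    rw [eval_eq_sum_range' hp, eval_eq_sum_range' hr, map_sum, Finset.sum_mul_sum]
    apply Finset.sum_congr rfl
    intro i _
    apply Finset.sum_congr rfl
    intro l _
    rw [map_mul]
    ring
  simp_rw [h1]
  rw [integral_finsetSum]
  · apply Finset.sum_congr rfl
    intro i _
    rw [integral_finsetSum]
    · apply Finset.sum_congr rfl
      intro l _
      rw [integral_const_mul]
    · intro l _
      exact integrable_poly hN _ (continuous_const.mul (hc i l))
  · intro i _
    apply integrable_poly hN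
    exact continuous_finsetSum _ fun l _ => continuous_const.mul (hc i l)

lemma reindex {k : ℕ} (hk : k < N) (j : ℕ) (f : ℕ → ℂ) (hf : ∀ i, i % N ≠ k → f i = 0) :
    ∑ i ∈ Finset.range (j * N + k + 1), f i = ∑ i ∈ Finset.range (j + 1), f (k + N * i) := by
  have hinj : Set.InjOn (fun i => k + N * i) (Finset.range (j + 1) : Set ℕ) := by
    intro a _ b _ hab
    simp only at hab
    have hN : 0 < N := by omega
    exact Nat.eq_of_mul_eq_mul_left hN (by omega)
  rw [← Finset.sum_image (f := f) hinj]
  symm
  apply Finset.sum_subset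
  · intro i hi
    obtain ⟨a, ha, rfl⟩ := Finset.mem_image.1 hi
    rw [Finset.mem_range] at ha ⊢
    have : N * a ≤ N * j := Nat.mul_le_mul_left _ (by omega)
    rw [mul_comm N j] at this
    omega
  · intro i hi hni
    apply hf
    intro hmod
    apply hni
    rw [Finset.mem_image]
    refine ⟨i / N, ?_, ?_⟩
    · rw [Finset.mem_range] at hi ⊢
      have h1 := Nat.div_add_mod i N
      rw [hmod] at h1
      by_contra hcon
      push Not at hcon
      have h2 : N * (j + 1) ≤ N * (i / N) := Nat.mul_le_mul_left _ hcon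
      have h3 : N * (j + 1) = j * N + N := by ring
      omega
    · have h1 := Nat.div_add_mod i N
      rw [hmod] at h1
      omega

lemma Geo.pow_eq_iff (h : Geo ω N) {k : ℕ} (hk : k < N) (i : ℕ) : ω ^ i = ω ^ k ↔ i % N = k := by
  have h1 : ω ^ i = ω ^ (i % N) := by
    conv_lhs => rw [← Nat.div_add_mod i N]
    rw [pow_add, pow_mul, h.pow, one_pow, one_mul]
  rw [h1]
  constructor
  · intro h2
    exact h.prim.pow_inj (Nat.mod_lt _ (by omega)) hk h2
  · intro h2
    rw [h2]

lemma Geo.pow_eq_k (h : Geo ω N) (k l : ℕ) : ω ^ (k + N * l) = ω ^ k := by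
  rw [pow_add, pow_mul, h.pow, one_pow, mul_one]

lemma sum_L1 (N k : ℕ) (q : ℝ[X]) (j : ℕ) (hq : q.natDegree < j + 1) (l : ℕ) :
    ∑ i ∈ Finset.range (j + 1), q.coeff i * L1 ω (k + N * i) (k + N * l) =
      ∫ t in (0 : ℝ)..1, t ^ k * q.eval (t ^ N) * (wp ω (k + 1 + N * l)).eval (1 - t) := by
  unfold L1
  simp_rw [← intervalIntegral.integral_const_mul]
  rw [← intervalIntegral.integral_finsetSum]
  · apply intervalIntegral.integral_congr
    intro t _
    simp only
    rw [eval_eq_sum_range' hq, Finset.mul_sum, Finset.sum_mul]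
    apply Finset.sum_congr rfl
    intro i _
    rw [show k + N * l + 1 = k + 1 + N * l by ring, pow_add, pow_mul]
    ring
  · intro i _
    apply Continuous.intervalIntegrable
    fun_prop

/-- the polynomial `X^k q(X^N)` -/
noncomputable def lift (k N : ℕ) (q : ℝ[X]) : ℂ[X] :=
  X ^ k * (q.map (algebraMap ℝ ℂ)).comp (X ^ N)

lemma coeff_lift_of (hN : 0 < N) (k : ℕ) (q : ℝ[X]) (i : ℕ) :
    (lift k N q).coeff (k + N * i) = (q.coeff i : ℂ) := by
  unfold lift
  rw [← expand_eq_comp_X_pow, coeff_X_pow_mul', if_pos (by omega), coeff_expand hN,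
    show k + N * i - k = N * i by omega, if_pos (dvd_mul_right _ _), Nat.mul_div_cancel_left _ hN,
    coeff_map]
  rfl

lemma coeff_lift_ne (hN : 0 < N) {k : ℕ} (hk : k < N) (q : ℝ[X]) (i : ℕ) (hi : i % N ≠ k) :
    (lift k N q).coeff i = 0 := by
  unfold lift
  rw [← expand_eq_comp_X_pow, coeff_X_pow_mul']
  split_ifs with h
  · rw [coeff_expand hN, if_neg]
    rintro ⟨e, he⟩
    apply hi
    have : i = k + N * e := by omega
    rw [this, Nat.add_mul_mod_self_left, Nat.mod_eq_of_lt hk]
  · rfl

lemma interior_nonempty (h : Geo ω N) : (interior (KK N)).Nonempty := by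
  have hN : 0 < N := by have := h.three_le; omega
  by_contra hcon
  rw [not_nonempty_iff_eq_empty] at hcon
  have h1 := h.moment 0 0 rfl
  rw [← setIntegral_congr_set (interior_ae hN), hcon] at h1
  simp only [Measure.restrict_empty, integral_zero_measure] at h1
  have h2 : (N / ((0 : ℕ) + 1) * L1 ω 0 0 : ℝ) = 0 := by exact_mod_cast h1.symm
  have h3 : 0 < L1 ω 0 0 := by
    unfold L1
    have h4 : ∀ t : ℝ, t ^ 0 * (wp ω (0 + 1)).eval (1 - t) = ω.im * (1 - t) := by
      intro t
      rw [eval_wp]
      simp
    simp_rw [h4]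
    rw [intervalIntegral.integral_const_mul]
    have h5 : ∫ t in (0 : ℝ)..1, (1 - t) = 1 / 2 := by
      rw [intervalIntegral.integral_sub (by simp) (by simp)]
      simp
      norm_num
    rw [h5]
    have := h.im_pos
    positivity
  have h6 : (0 : ℝ) < N := by exact_mod_cast hN
  have : 0 < (N / ((0 : ℕ) + 1) * L1 ω 0 0 : ℝ) := by positivity
  linarith

/-- a polynomial orthogonal to itself vanishes -/
lemma eq_zero_of_self (h : Geo ω N) (D : ℂ[X])
    (h0 : ∫ z in KK N, D.eval z * (starRingEnd ℂ) (D.eval z) = 0) : D = 0 := by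
  have hN : 0 < N := by have := h.three_le; omega
  rw [← setIntegral_congr_set (interior_ae hN)] at h0
  have h1 : ∀ z : ℂ, D.eval z * (starRingEnd ℂ) (D.eval z) = ((Complex.normSq (D.eval z) : ℝ) : ℂ) := by
    intro z
    rw [Complex.mul_conj]
  simp_rw [h1] at h0
  rw [integral_complex_ofReal] at h0
  have h2 : ∫ z in interior (KK N), Complex.normSq (D.eval z) = 0 := by exact_mod_cast h0
  have hcont : Continuous fun z : ℂ => Complex.normSq (D.eval z) :=
    Complex.continuous_normSq.comp D.continuous
  have hint : IntegrableOn (fun z : ℂ => Complex.normSq (D.eval z)) (interior (KK N)) volume :=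
    (hcont.continuousOn.integrableOn_compact (isCompact_KK hN)).mono_set interior_subset
  have h3 := (setIntegral_eq_zero_iff_of_nonneg_ae
    (ae_of_all _ fun z => Complex.normSq_nonneg _) hint).1 h2
  have h4 := Measure.eqOn_open_of_ae_eq h3 isOpen_interior hcont.continuousOn continuousOn_const
  apply Polynomial.eq_zero_of_infinite_isRoot
  obtain ⟨z₀, hz₀⟩ := interior_nonempty h
  refine (infinite_of_mem_nhds z₀ (isOpen_interior.mem_nhds hz₀)).mono ?_
  intro z hz
  exact Complex.normSq_eq_zero.1 (h4 hz)

theorem from_orth (h : Geo ω N) {k : ℕ} (hk : k < N) {j : ℕ} (hj : 1 ≤ j) {p : ℂ[X]} (hp : p.Monic)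
    (hpd : p.natDegree = j * N + k)
    (horth : ∀ r : ℂ[X], r.natDegree < j * N + k →
      ∫ z in interior (convexHull ℝ {w : ℂ | w ^ N = 1}), p.eval z * (starRingEnd ℂ) (r.eval z) = 0) :
    ∃ q : ℝ[X], q.Monic ∧ q.natDegree = j ∧ Orth ω N k j q ∧ p = lift k N q := by
  have hN : 0 < N := by omega
  have hNj : N ≤ j * N := Nat.le_mul_of_pos_left _ hj
  have horth' : ∀ r : ℂ[X], r.natDegree < j * N + k →
      ∫ z in KK N, p.eval z * (starRingEnd ℂ) (r.eval z) = 0 := by
    intro r hr
    rw [← setIntegral_congr_set (interior_ae hN)]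
    exact horth r hr
  set q : ℝ[X] := ∑ i ∈ Finset.range (j + 1), C ((p.coeff (k + N * i)).re) * X ^ i with hq
  have hqc : ∀ i, i < j + 1 → q.coeff i = (p.coeff (k + N * i)).re := by
    intro i hi
    rw [hq, finsetSum_coeff]
    simp only [coeff_C_mul_X_pow]
    rw [Finset.sum_ite_eq, if_pos (Finset.mem_range.2 hi)]
  have hpj : p.coeff (k + N * j) = 1 := by
    have : k + N * j = p.natDegree := by rw [hpd]; ring
    rw [this]
    exact hp
  have hqj : q.coeff j = 1 := by
    rw [hqc j (by omega), hpj]
    simp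
  have hqle : q.natDegree ≤ j := by
    rw [hq]
    apply natDegree_sum_le_of_forall_le
    intro i hi
    rw [Finset.mem_range] at hi
    exact (natDegree_C_mul_X_pow_le _ _).trans (by omega)
  have hqd : q.natDegree = j := by
    apply le_antisymm hqle
    apply le_natDegree_of_ne_zero
    rw [hqj]
    exact one_ne_zero
  have hqm : q.Monic := by
    rw [Monic, leadingCoeff, hqd, hqj]
  -- the moments against `z^(k + N l)`
  have hmom : ∀ i l : ℕ, ∫ z in KK N, z ^ (k + N * i) * (starRingEnd ℂ) (z ^ (k + N * l)) =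
      ((N / ((k + N * l : ℕ) + 1) * L1 ω (k + N * i) (k + N * l) : ℝ) : ℂ) :=
    fun i l => h.moment _ _ (by rw [h.pow_eq_k, h.pow_eq_k])
  have hfac : ∀ l : ℕ, (0 : ℝ) < N / ((k + N * l : ℕ) + 1) := by
    intro l
    have : (0 : ℝ) < N := by exact_mod_cast hN
    positivity
  have hzero : ∀ i l : ℕ, i % N = k → l % N ≠ k →
      ∫ z in KK N, z ^ i * (starRingEnd ℂ) (z ^ l) = 0 := by
    intro i l hi hl
    apply h.moment_zero
    rw [(h.pow_eq_iff hk i).2 hi]
    intro hcon
    exact hl ((h.pow_eq_iff hk l).1 hcon.symm)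
  have hzero' : ∀ i l : ℕ, i % N ≠ k → l % N = k →
      ∫ z in KK N, z ^ i * (starRingEnd ℂ) (z ^ l) = 0 := by
    intro i l hi hl
    apply h.moment_zero
    rw [(h.pow_eq_iff hk l).2 hl]
    intro hcon
    exact hi ((h.pow_eq_iff hk i).1 hcon)
  have hmodk : ∀ l : ℕ, (k + N * l) % N = k := by
    intro l
    rw [Nat.add_mul_mod_self_left, Nat.mod_eq_of_lt hk]
  have hsum : ∀ l, l < j → ∑ i ∈ Finset.range (j + 1), q.coeff i * L1 ω (k + N * i) (k + N * l) = 0 := by
    intro l hl
    have hNl : k + N * l < j * N + k := by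
      have : N * (l + 1) ≤ N * j := Nat.mul_le_mul_left _ hl
      have h2 : N * (l + 1) = N * l + N := by ring
      have h3 : N * j = j * N := by ring
      omega
    have h1 := horth' (X ^ (k + N * l)) (by rw [natDegree_X_pow]; exact hNl)
    have h2 : ∀ z : ℂ, p.eval z * (starRingEnd ℂ) ((X ^ (k + N * l) : ℂ[X]).eval z) =
        p.eval z * (starRingEnd ℂ) ((X ^ (k + N * l) : ℂ[X]).eval z) := fun z => rfl
    rw [B_expand hN p (X ^ (k + N * l)) (j * N + k + 1) (k + N * l + 1) (by omega)
      (by rw [natDegree_X_pow]; omega)] at h1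
    have h3 : ∀ i ∈ Finset.range (j * N + k + 1),
        (∑ l' ∈ Finset.range (k + N * l + 1), p.coeff i *
          (starRingEnd ℂ) ((X ^ (k + N * l) : ℂ[X]).coeff l') *
          ∫ z in KK N, z ^ i * (starRingEnd ℂ) (z ^ l')) =
        p.coeff i * ∫ z in KK N, z ^ i * (starRingEnd ℂ) (z ^ (k + N * l)) := by
      intro i _
      rw [Finset.sum_eq_single (k + N * l)]
      · simp
      · intro l' _ hne
        rw [coeff_X_pow, if_neg hne]
        simp
      · intro hcon
        exact absurd (Finset.mem_range.2 (by omega)) hcon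
    rw [Finset.sum_congr rfl h3, reindex hk j
      (fun i => p.coeff i * ∫ z in KK N, z ^ i * (starRingEnd ℂ) (z ^ (k + N * l))) (by
        intro i hi
        rw [hzero' i _ hi (hmodk l), mul_zero])] at h1
    have h4 := congrArg Complex.re h1
    rw [Complex.re_sum, Complex.zero_re] at h4
    have h5 : ∑ i ∈ Finset.range (j + 1), (p.coeff (k + N * i) *
        ∫ z in KK N, z ^ (k + N * i) * (starRingEnd ℂ) (z ^ (k + N * l))).re =
        (N / ((k + N * l : ℕ) + 1)) *
          ∑ i ∈ Finset.range (j + 1), q.coeff i * L1 ω (k + N * i) (k + N * l) := by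
      rw [Finset.mul_sum]
      apply Finset.sum_congr rfl
      intro i hi
      rw [hmom, Complex.re_mul_ofReal, hqc i (Finset.mem_range.1 hi)]
      ring
    rw [h5] at h4
    rcases mul_eq_zero.1 h4 with h6 | h6
    · exact absurd h6 (hfac l).ne'
    · exact h6
  have hOrth : Orth ω N k j q := by
    intro l hl
    rw [← sum_L1 N k q j (by omega) l]
    exact hsum l hl
  refine ⟨q, hqm, hqd, hOrth, ?_⟩
  -- uniqueness
  set P := lift k N q with hP
  have hPd : P.natDegree ≤ j * N + k := by
    rw [hP, lift, natDegree_le_iff_coeff_eq_zero]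
    intro i hi
    by_cases hmod : i % N = k
    · have h1 := Nat.div_add_mod i N
      rw [hmod] at h1
      have h2 : i = k + N * (i / N) := by omega
      have h3 := coeff_lift_of hN k q (i / N)
      rw [lift] at h3
      rw [h2, h3, coeff_eq_zero_of_natDegree_lt]
      · simp
      · rw [hqd]
        by_contra hcon
        push Not at hcon
        have h4 : N * (i / N) ≤ N * j := Nat.mul_le_mul_left _ hcon
        have h5 : N * j = j * N := by ring
        omega
    · exact coeff_lift_ne hN hk q i hmod
  have hPorth : ∀ r : ℂ[X], r.natDegree < j * N + k →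
      ∫ z in KK N, P.eval z * (starRingEnd ℂ) (r.eval z) = 0 := by
    intro r hr
    rw [B_expand hN P r (j * N + k + 1) (j * N + k) (by omega) hr, Finset.sum_comm]
    apply Finset.sum_eq_zero
    intro l hl
    rw [Finset.mem_range] at hl
    by_cases hmod : l % N = k
    · have h1 := Nat.div_add_mod l N
      rw [hmod] at h1
      have h2 : l = k + N * (l / N) := by omega
      set l' := l / N with hl'
      have hl'j : l' < j := by
        by_contra hcon
        push Not at hcon
        have h4 : N * j ≤ N * l' := Nat.mul_le_mul_left _ hcon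
        have h5 : N * j = j * N := by ring
        omega
      rw [h2, reindex hk j (fun i => P.coeff i * (starRingEnd ℂ) (r.coeff (k + N * l')) *
        ∫ z in KK N, z ^ i * (starRingEnd ℂ) (z ^ (k + N * l'))) (by
          intro i hi
          rw [hP, coeff_lift_ne hN hk q i hi]
          ring)]
      have h6 : ∀ i ∈ Finset.range (j + 1), P.coeff (k + N * i) *
          (starRingEnd ℂ) (r.coeff (k + N * l')) *
          ∫ z in KK N, z ^ (k + N * i) * (starRingEnd ℂ) (z ^ (k + N * l')) =
          (starRingEnd ℂ) (r.coeff (k + N * l')) * (((N / ((k + N * l' : ℕ) + 1) : ℝ) : ℂ) *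
            ((q.coeff i * L1 ω (k + N * i) (k + N * l') : ℝ) : ℂ)) := by
        intro i _
        rw [hP, coeff_lift_of hN, hmom]
        push_cast
        ring
      rw [Finset.sum_congr rfl h6, ← Finset.mul_sum, ← Finset.mul_sum, ← Complex.ofReal_sum,
        hsum l' hl'j]
      simp
    · apply Finset.sum_eq_zero
      intro i _
      by_cases hi : i % N = k
      · rw [hzero i l hi hmod, mul_zero]
      · rw [hP, coeff_lift_ne hN hk q i hi]
        ring
  set D := p - P with hD
  have hDd : D.natDegree < j * N + k := by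
    have h1 : D.natDegree ≤ j * N + k := by
      rw [hD]
      exact (natDegree_sub_le _ _).trans (max_le hpd.le hPd)
    rcases h1.eq_or_lt with h2 | h2
    · exfalso
      have h3 : D.coeff (j * N + k) = 0 := by
        rw [hD, coeff_sub]
        have h4 : j * N + k = k + N * j := by ring
        rw [h4, hpj, hP, coeff_lift_of hN, hqj]
        simp
      have h5 : D = 0 := by
        rw [← leadingCoeff_eq_zero, leadingCoeff, h2, h3]
      rw [h5, natDegree_zero] at h2
      omega
    · exact h2
  have hDD : ∫ z in KK N, D.eval z * (starRingEnd ℂ) (D.eval z) = 0 := by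
    have h1 : ∀ z : ℂ, D.eval z * (starRingEnd ℂ) (D.eval z) =
        p.eval z * (starRingEnd ℂ) (D.eval z) - P.eval z * (starRingEnd ℂ) (D.eval z) := by
      intro z
      have : D.eval z = p.eval z - P.eval z := by rw [hD, eval_sub]
      rw [← sub_mul, ← this]
    simp_rw [h1]
    rw [integral_sub, horth' D hDd, hPorth D hDd, sub_zero]
    · exact integrable_poly hN _ (p.continuous.mul (Complex.continuous_conj.comp D.continuous))
    · exact integrable_poly hN _ (P.continuous.mul (Complex.continuous_conj.comp D.continuous))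
  have hD0 := eq_zero_of_self h D hDD
  exact sub_eq_zero.1 hD0

end Pool.Agent.W775.Berg
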