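import Mathlib

/-!
Counting the roots of a real polynomial in `(0,1)` with multiplicities, and Rolle's theorem with
boundary zeros.
-/

set_option autoImplicit false

open Polynomial

namespace Pool.Agent.W775.Berg

/-- distinct roots in `(0,1)` -/
noncomputable def rts (f : ℝ[X]) : Finset ℝ := f.roots.toFinset.filter (fun x => 0 < x ∧ x < 1)

/-- number of roots in `(0,1)` with multiplicity -/
noncomputable def cnt (f : ℝ[X]) : ℕ := ∑ x ∈ rts f, f.rootMultiplicity x

lemma mem_rts {f : ℝ[X]} (hf : f ≠ 0) {x : ℝ} : x ∈ rts f ↔ f.eval x = 0 ∧ 0 < x ∧ x < 1 := by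
  simp [rts, hf]

lemma rts_card_le (f : ℝ[X]) : (rts f).card ≤ cnt f := by
  by_cases hf : f = 0
  · simp [rts, cnt, hf]
  unfold cnt
  rw [Finset.card_eq_sum_ones]
  apply Finset.sum_le_sum
  intro x hx
  exact (rootMultiplicity_pos hf).2 ((mem_rts hf).1 hx).1

theorem rolle (f : ℝ[X]) (hf' : f.derivative ≠ 0) :
    cnt f + (if f.eval 0 = 0 then 1 else 0) + (if f.eval 1 = 0 then 1 else 0) ≤
      cnt f.derivative + 1 := by
  classical
  have hf : f ≠ 0 := by rintro rfl; simp at hf'
  set B : Finset ℝ := f.roots.toFinset.filter (fun x => 0 ≤ x ∧ x ≤ 1) with hB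
  set T : Finset ℝ := rts f.derivative with hT
  have hmemB : ∀ x, x ∈ B ↔ f.eval x = 0 ∧ 0 ≤ x ∧ x ≤ 1 := by
    intro x; simp [hB, hf]
  have hcardB : B.card = (rts f).card + (if f.eval 0 = 0 then 1 else 0) +
      (if f.eval 1 = 0 then 1 else 0) := by
    have h1 : B = rts f ∪ ((if f.eval 0 = 0 then {0} else ∅) ∪ (if f.eval 1 = 0 then {1} else ∅)) := by
      ext x
      rw [hmemB, Finset.mem_union, mem_rts hf, Finset.mem_union]
      constructor
      · rintro ⟨h, h0, h1⟩
        rcases h0.eq_or_lt with rfl | h0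
        · right; left; simp [h]
        · rcases h1.eq_or_lt with rfl | h1
          · right; right; simp [h]
          · left; exact ⟨h, h0, h1⟩
      · rintro (⟨h, h0, h1⟩ | h | h)
        · exact ⟨h, h0.le, h1.le⟩
        · split_ifs at h with hh
          · rw [Finset.mem_singleton] at h; subst h; exact ⟨hh, le_rfl, zero_le_one⟩
          · simp at h
        · split_ifs at h with hh
          · rw [Finset.mem_singleton] at h; subst h; exact ⟨hh, zero_le_one, le_rfl⟩
          · simp at h
    rw [h1, Finset.card_union_of_disjoint, Finset.card_union_of_disjoint]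
    · split_ifs <;> simp
    · split_ifs <;> simp
    · rw [Finset.disjoint_left]
      intro x hx hx'
      obtain ⟨_, h0, h1⟩ := (mem_rts hf).1 hx
      rw [Finset.mem_union] at hx'
      rcases hx' with hx' | hx' <;> split_ifs at hx' <;> simp at hx' <;> linarith
  have hroll : B.card ≤ (T \ B).card + 1 := by
    apply Finset.card_le_sdiff_of_interleaved
    intro x hx y hy hxy _
    obtain ⟨hx1, hx2, hx3⟩ := (hmemB x).1 hx
    obtain ⟨hy1, hy2, hy3⟩ := (hmemB y).1 hy
    obtain ⟨z, hz1, hz2⟩ := exists_deriv_eq_zero hxy f.continuousOn (hx1.trans hy1.symm)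
    rw [Polynomial.deriv] at hz2
    exact ⟨z, (mem_rts hf').2 ⟨hz2, lt_of_le_of_lt hx2 hz1.1, lt_of_lt_of_le hz1.2 hy3⟩, hz1.1, hz1.2⟩
  have hdisj : Disjoint (rts f) (T \ B) := by
    rw [Finset.disjoint_left]
    intro x hx hx'
    obtain ⟨h, h0, h1⟩ := (mem_rts hf).1 hx
    exact (Finset.mem_sdiff.1 hx').2 ((hmemB x).2 ⟨h, h0.le, h1.le⟩)
  have h1 : cnt f = ∑ x ∈ rts f, (f.rootMultiplicity x - 1) + (rts f).card := by
    unfold cnt
    rw [Finset.card_eq_sum_ones, ← Finset.sum_add_distrib]
    apply Finset.sum_congr rfl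
    intro x hx
    have := (rootMultiplicity_pos hf).2 ((mem_rts hf).1 hx).1
    omega
  have h2 : ∑ x ∈ rts f, (f.rootMultiplicity x - 1) ≤ ∑ x ∈ rts f, f.derivative.rootMultiplicity x :=
    Finset.sum_le_sum fun x _ => rootMultiplicity_sub_one_le_derivative_rootMultiplicity _ _
  have h3 : (T \ B).card ≤ ∑ x ∈ T \ B, f.derivative.rootMultiplicity x := by
    rw [Finset.card_eq_sum_ones]
    apply Finset.sum_le_sum
    intro x hx
    exact (rootMultiplicity_pos hf').2 ((mem_rts hf').1 (Finset.mem_sdiff.1 hx).1).1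
  have h4 : ∑ x ∈ rts f, f.derivative.rootMultiplicity x +
      ∑ x ∈ T \ B, f.derivative.rootMultiplicity x ≤ cnt f.derivative := by
    rw [← Finset.sum_union hdisj]
    unfold cnt
    rw [← hT]
    apply Finset.sum_le_sum_of_ne_zero
    intro x hx hx0
    rw [Finset.mem_union] at hx
    rcases hx with hx | hx
    · refine (mem_rts hf').2 ⟨?_, ((mem_rts hf).1 hx).2⟩
      exact (rootMultiplicity_pos hf').1 (Nat.pos_of_ne_zero hx0)
    · exact (Finset.mem_sdiff.1 hx).1
  omega

end Pool.Agent.W775.Berg
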