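import Pool.Agent.W775.Berg1

/-!
The functions `Im (1 + ω s)^(a + N l)` form a Chebyshev system on `(0,1)` for `N = 3, 4`.
-/

set_option autoImplicit false

open Polynomial

namespace Pool.Agent.W775.Berg

/-- imaginary parts of the coefficients -/
noncomputable def imPoly (F : ℂ[X]) : ℝ[X] :=
  ∑ i ∈ Finset.range (F.natDegree + 1), C ((F.coeff i).im) * X ^ i

lemma coeff_imPoly (F : ℂ[X]) (n : ℕ) : (imPoly F).coeff n = (F.coeff n).im := by
  unfold imPoly
  rw [finsetSum_coeff]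
  simp only [coeff_C_mul_X_pow]
  rw [Finset.sum_ite_eq]
  split_ifs with h
  · rfl
  · rw [Finset.mem_range, not_lt] at h
    rw [coeff_eq_zero_of_natDegree_lt (by omega)]
    simp

lemma imPoly_add (F G : ℂ[X]) : imPoly (F + G) = imPoly F + imPoly G := by
  ext n; simp [coeff_imPoly]

lemma imPoly_zero : imPoly 0 = 0 := by
  ext n; simp [coeff_imPoly]

lemma imPoly_real_mul (c : ℝ) (F : ℂ[X]) : imPoly (C (c : ℂ) * F) = C c * imPoly F := by
  ext n; simp [coeff_imPoly]

lemma imPoly_C (c : ℂ) : imPoly (C c) = C c.im := by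
  ext n
  rw [coeff_imPoly, coeff_C, coeff_C]
  split_ifs <;> simp

lemma derivative_imPoly (F : ℂ[X]) : (imPoly F).derivative = imPoly F.derivative := by
  ext n
  rw [coeff_derivative, coeff_imPoly, coeff_imPoly, coeff_derivative]
  simp

lemma iterate_derivative_imPoly (F : ℂ[X]) (q : ℕ) :
    derivative^[q] (imPoly F) = imPoly (derivative^[q] F) := by
  induction q with
  | zero => rfl
  | succ q ih => rw [Function.iterate_succ_apply', Function.iterate_succ_apply', ih, derivative_imPoly]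

lemma eval_imPoly (F : ℂ[X]) (s : ℝ) : (imPoly F).eval s = (F.eval (s : ℂ)).im := by
  induction F using Polynomial.induction_on' with
  | add p q hp hq => rw [imPoly_add, eval_add, eval_add, Complex.add_im, hp, hq]
  | monomial n a =>
    have h : imPoly (monomial n a) = monomial n a.im := by
      ext m
      rw [coeff_imPoly, coeff_monomial, coeff_monomial]
      split_ifs <;> simp
    rw [h, eval_monomial, eval_monomial, ← Complex.ofReal_pow, Complex.mul_im, Complex.ofReal_re,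
      Complex.ofReal_im]
    ring

/-- `(1 + ω X)^m` -/
noncomputable def lin (ω : ℂ) (m : ℕ) : ℂ[X] := (1 + C ω * X) ^ m

lemma derivative_lin (ω : ℂ) (m : ℕ) : (lin ω m).derivative = C (ω * m) * lin ω (m - 1) := by
  unfold lin
  rw [derivative_pow]
  simp only [derivative_add, derivative_one, derivative_mul, derivative_C, derivative_X, zero_mul,
    zero_add, mul_one, map_mul, map_natCast]
  ring

lemma iterate_derivative_lin (ω : ℂ) (m q : ℕ) :
    derivative^[q] (lin ω m) = C (ω ^ q * (m.descFactorial q : ℂ)) * lin ω (m - q) := by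
  induction q with
  | zero => simp
  | succ q ih =>
    rw [Function.iterate_succ_apply', ih, derivative_C_mul, derivative_lin, ← mul_assoc, ← C_mul,
      Nat.sub_sub]
    congr 2
    rw [Nat.descFactorial_succ]
    push_cast
    ring

lemma eval_lin (ω : ℂ) (m : ℕ) (s : ℂ) : (lin ω m).eval s = (1 + ω * s) ^ m := by
  simp [lin]

/-- the real polynomial `Im (1 + ω s)^m` -/
noncomputable def wp (ω : ℂ) (m : ℕ) : ℝ[X] := imPoly (lin ω m)

lemma eval_wp (ω : ℂ) (m : ℕ) (s : ℝ) : (wp ω m).eval s = ((1 + ω * s) ^ m).im := by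
  rw [wp, eval_imPoly, eval_lin]

lemma iter_wp (ω : ℂ) (m q : ℕ) :
    derivative^[q] (wp ω m) = C (m.descFactorial q : ℝ) * imPoly (C (ω ^ q) * lin ω (m - q)) := by
  rw [wp, iterate_derivative_imPoly, iterate_derivative_lin, ← imPoly_real_mul, ← mul_assoc, ← C_mul]
  congr 3
  push_cast
  ring

lemma iter_wp_N {ω : ℂ} {N : ℕ} (hω : ω ^ N = 1) (m : ℕ) :
    derivative^[N] (wp ω m) = C (m.descFactorial N : ℝ) * wp ω (m - N) := by
  rw [iter_wp, hω, C_1, one_mul]
  rfl

/-- linear combinations of the system -/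
noncomputable def comb (ω : ℂ) (N a : ℕ) (d : ℕ) (c : ℕ → ℝ) : ℝ[X] :=
  ∑ l ∈ Finset.range (d + 1), C (c l) * wp ω (a + N * l)

lemma iter_comb (ω : ℂ) (N a d : ℕ) (c : ℕ → ℝ) (q : ℕ) :
    derivative^[q] (comb ω N a d c) =
      ∑ l ∈ Finset.range (d + 1), C (c l) * derivative^[q] (wp ω (a + N * l)) := by
  unfold comb
  rw [iterate_derivative_sum]
  apply Finset.sum_congr rfl
  intro l _
  rw [iterate_derivative_C_mul]

lemma wp_zero (ω : ℂ) : wp ω 0 = 0 := by
  rw [wp, lin, pow_zero, ← C_1, imPoly_C]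
  simp

lemma iter_comb_N {ω : ℂ} {N : ℕ} (hω : ω ^ N = 1) (a : ℕ) (haN : a ≤ N) (d : ℕ)
    (c : ℕ → ℝ) :
    derivative^[N] (comb ω N a (d + 1) c) =
      comb ω N a d (fun l => c (l + 1) * ((a + N * (l + 1)).descFactorial N : ℝ)) := by
  rw [iter_comb, Finset.sum_range_succ']
  have h0 : C (c 0) * derivative^[N] (wp ω (a + N * 0)) = 0 := by
    rw [iter_wp_N hω, mul_zero, add_zero, Nat.sub_eq_zero_of_le haN, wp_zero, mul_zero, mul_zero]
  rw [h0, add_zero]
  unfold comb
  apply Finset.sum_congr rfl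
  intro l _
  rw [iter_wp_N hω, C_mul, mul_assoc]
  congr 3
  have : a + N * (l + 1) = a + N * l + N := by ring
  omega

lemma iter_comb_zero {ω : ℂ} {N : ℕ} (hω : ω ^ N = 1) (a : ℕ) (haN : a ≤ N)
    (c : ℕ → ℝ) :
    derivative^[N] (comb ω N a 0 c) = 0 := by
  rw [iter_comb]
  simp only [zero_add, Finset.range_one, Finset.sum_singleton, mul_zero, add_zero]
  rw [iter_wp_N hω, Nat.sub_eq_zero_of_le haN, wp_zero, mul_zero, mul_zero]

/-- the data needed: `q`-th derivatives vanish at `0` or at `1` -/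
lemma eval_iter_comb (ω : ℂ) (N a d : ℕ) (c : ℕ → ℝ) (q : ℕ) (s : ℝ) :
    (derivative^[q] (comb ω N a d c)).eval s =
      ∑ l ∈ Finset.range (d + 1), c l * (((a + N * l).descFactorial q : ℝ) *
        (ω ^ q * (1 + ω * s) ^ (a + N * l - q)).im) := by
  rw [iter_comb, eval_finsetSum]
  apply Finset.sum_congr rfl
  intro l _
  rw [iter_wp]
  simp only [eval_mul, eval_C, eval_imPoly, eval_lin]

lemma eval_iter_zero {ω : ℂ} {q : ℕ} (hq : (ω ^ q).im = 0) (N a d : ℕ) (c : ℕ → ℝ) :
    (derivative^[q] (comb ω N a d c)).eval 0 = 0 := by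
  rw [eval_iter_comb]
  apply Finset.sum_eq_zero
  intro l _
  simp [hq]

lemma im_mul_pow_zero {ω : ℂ} {ρ : ℝ} {N q m : ℕ} (hρ : ρ ≠ 0) (hκ : (1 + ω) ^ 2 = ρ * ω)
    (hN : ((1 + ω) ^ N).im = 0) (hqm : q ≤ m) (hdvd : N ∣ m + q) :
    (ω ^ q * (1 + ω) ^ (m - q)).im = 0 := by
  obtain ⟨e, he⟩ := hdvd
  have h1 : (ρ : ℂ) ^ q * (ω ^ q * (1 + ω) ^ (m - q)) = ((1 + ω) ^ N) ^ e := by
    rw [← mul_assoc, ← mul_pow, ← hκ, ← pow_mul, ← pow_add, ← pow_mul, ← he]
    congr 1
    omega
  have h2 : (((1 + ω) ^ N) ^ e).im = 0 := by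
    have h3 : (1 + ω) ^ N = ((((1 + ω) ^ N).re : ℝ) : ℂ) := by
      apply Complex.ext
      · simp
      · rw [hN]; simp
    rw [h3, ← Complex.ofReal_pow, Complex.ofReal_im]
  rw [← h1, ← Complex.ofReal_pow, Complex.im_ofReal_mul] at h2
  exact (mul_eq_zero.1 h2).resolve_left (pow_ne_zero _ hρ)

lemma eval_iter_one {ω : ℂ} {ρ : ℝ} {N a : ℕ} (hρ : ρ ≠ 0) (hκ : (1 + ω) ^ 2 = ρ * ω)
    (hN : ((1 + ω) ^ N).im = 0) (haN : a ≤ N) (d : ℕ) (c : ℕ → ℝ) :
    (derivative^[N - a] (comb ω N a d c)).eval 1 = 0 := by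
  rw [eval_iter_comb]
  apply Finset.sum_eq_zero
  intro l _
  rw [Complex.ofReal_one, mul_one]
  by_cases h : N - a ≤ a + N * l
  · rw [im_mul_pow_zero hρ hκ hN h]
    · ring
    · refine ⟨l + 1, ?_⟩
      have : N * (l + 1) = N * l + N := by ring
      omega
  · rw [Nat.descFactorial_eq_zero_iff_lt.2 (by omega)]
    simp

/-- number of boundary zeros of the `q`-th derivative -/
noncomputable def bz (f : ℝ[X]) (q : ℕ) : ℕ :=
  (if (derivative^[q] f).eval 0 = 0 then 1 else 0) + (if (derivative^[q] f).eval 1 = 0 then 1 else 0)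

lemma chain (f : ℝ[X]) : ∀ N : ℕ, derivative^[N] f ≠ 0 →
    cnt f + ∑ q ∈ Finset.range N, bz f q ≤ cnt (derivative^[N] f) + N := by
  intro N
  induction N with
  | zero => intro _; simp
  | succ N ih =>
    intro h
    have h1 : derivative^[N] f ≠ 0 := by
      intro h0
      rw [Function.iterate_succ_apply', h0, derivative_zero] at h
      exact h rfl
    have h2 := ih h1
    rw [Function.iterate_succ_apply'] at h ⊢
    have h3 := rolle _ h
    rw [Finset.sum_range_succ]
    unfold bz at h2 ⊢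
    omega

/-- everything we need about `ω`, `N`, `a` -/
structure Good (ω : ℂ) (N a : ℕ) : Prop where
  pow : ω ^ N = 1
  le : a ≤ N
  pos : ∀ s : ℝ, 0 < s → s < 1 → 0 < ((1 + ω * s) ^ a).im
  bd : ∀ (d : ℕ) (c : ℕ → ℝ), N - 1 ≤ ∑ q ∈ Finset.range N, bz (comb ω N a d c) q

lemma cheb_zero {ω : ℂ} {N a : ℕ} (hg : Good ω N a) (c : ℝ) (hc : c ≠ 0) :
    C c * wp ω a ≠ 0 ∧ cnt (C c * wp ω a) = 0 := by
  have hw : wp ω a ≠ 0 := by
    intro h
    have h1 := hg.pos (1 / 2) (by norm_num) (by norm_num)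
    rw [← eval_wp, h, eval_zero] at h1
    exact lt_irrefl _ h1
  have hne : C c * wp ω a ≠ 0 := mul_ne_zero (C_ne_zero.2 hc) hw
  refine ⟨hne, ?_⟩
  have h2 : rts (C c * wp ω a) = ∅ := by
    rw [Finset.eq_empty_iff_forall_notMem]
    intro x hx
    obtain ⟨h, h0, h1⟩ := (mem_rts hne).1 hx
    rw [eval_mul, eval_C, eval_wp] at h
    have := hg.pos x h0 h1
    rcases mul_eq_zero.1 h with h | h
    · exact hc h
    · linarith
  unfold cnt
  rw [h2, Finset.sum_empty]

theorem cheb {ω : ℂ} {N a : ℕ} (hg : Good ω N a) (hN : 1 ≤ N) : ∀ (d : ℕ) (c : ℕ → ℝ),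
    (∃ l, l ≤ d ∧ c l ≠ 0) → comb ω N a d c ≠ 0 ∧ cnt (comb ω N a d c) ≤ d := by
  intro d
  induction d with
  | zero =>
    rintro c ⟨l, hl, hc⟩
    obtain rfl : l = 0 := by omega
    have h := cheb_zero hg (c 0) hc
    have h1 : comb ω N a 0 c = C (c 0) * wp ω a := by
      simp [comb]
    rw [h1]
    exact ⟨h.1, h.2.le⟩
  | succ d ih =>
    rintro c ⟨l, hl, hc⟩
    by_cases hall : ∀ l, 1 ≤ l → l ≤ d + 1 → c l = 0
    · have hc0 : c 0 ≠ 0 := by
        rcases Nat.eq_zero_or_pos l with rfl | h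
        · exact hc
        · exact absurd (hall l h hl) hc
      have h := cheb_zero hg (c 0) hc0
      have h1 : comb ω N a (d + 1) c = C (c 0) * wp ω a := by
        unfold comb
        rw [Finset.sum_range_succ', Finset.sum_eq_zero]
        · simp
        · intro i hi
          rw [Finset.mem_range] at hi
          rw [hall (i + 1) (by omega) (by omega)]
          simp
      rw [h1]
      exact ⟨h.1, by rw [h.2]; omega⟩
    · push Not at hall
      obtain ⟨l', hl1, hl2, hl3⟩ := hall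
      have h1 := iter_comb_N hg.pow a hg.le d c
      obtain ⟨h2, h3⟩ := ih (fun l => c (l + 1) * ((a + N * (l + 1)).descFactorial N : ℝ)) (by
        refine ⟨l' - 1, by omega, ?_⟩
        rw [Nat.sub_add_cancel hl1]
        refine mul_ne_zero hl3 ?_
        rw [Nat.cast_ne_zero]
        intro h
        rw [Nat.descFactorial_eq_zero_iff_lt] at h
        have : N * 1 ≤ N * l' := Nat.mul_le_mul_left _ hl1
        omega)
      rw [← h1] at h2 h3
      have h4 := chain _ N h2
      have h5 := hg.bd (d + 1) c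
      refine ⟨?_, by omega⟩
      intro h0
      rw [h0, iterate_derivative_zero] at h2
      exact h2 rfl

lemma one_le_bz_zero {f : ℝ[X]} {q : ℕ} (h : (derivative^[q] f).eval 0 = 0) :
    1 ≤ bz f q := by
  unfold bz; rw [if_pos h]; omega

lemma one_le_bz_one {f : ℝ[X]} {q : ℕ} (h : (derivative^[q] f).eval 1 = 0) :
    1 ≤ bz f q := by
  unfold bz; rw [if_pos h]; omega

lemma two_le_bz {f : ℝ[X]} {q : ℕ} (h : (derivative^[q] f).eval 0 = 0)
    (h' : (derivative^[q] f).eval 1 = 0) :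
    2 ≤ bz f q := by
  unfold bz; rw [if_pos h, if_pos h']

/-- the fourth root of unity -/
lemma good_four (a : ℕ) (ha : 1 ≤ a) (ha4 : a ≤ 4) : Good Complex.I 4 a := by
  have e0 : ∀ (d : ℕ) (c : ℕ → ℝ), (derivative^[0] (comb Complex.I 4 a d c)).eval 0 = 0 :=
    fun d c => eval_iter_zero (by simp) _ _ _ _
  have e2 : ∀ (d : ℕ) (c : ℕ → ℝ), (derivative^[2] (comb Complex.I 4 a d c)).eval 0 = 0 :=
    fun d c => eval_iter_zero (by simp) _ _ _ _
  have hκ : (1 + Complex.I) ^ 2 = ((2 : ℝ) : ℂ) * Complex.I := by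
    push_cast
    ring_nf
    rw [Complex.I_sq]
    ring
  have hN : ((1 + Complex.I) ^ 4).im = 0 := by
    have : (1 + Complex.I) ^ 4 = -4 := by
      have : (1 + Complex.I) ^ 4 = ((1 + Complex.I) ^ 2) ^ 2 := by ring
      rw [this, hκ, mul_pow, Complex.I_sq]
      push_cast
      ring
    rw [this]
    simp
  have e1 : ∀ (d : ℕ) (c : ℕ → ℝ), (derivative^[4 - a] (comb Complex.I 4 a d c)).eval 1 = 0 :=
    fun d c => eval_iter_one (by norm_num) hκ hN ha4 _ _
  refine ⟨Complex.I_pow_four, ha4, ?_, ?_⟩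
  · intro s hs0 hs1
    have hs2 : s ^ 2 < 1 := by nlinarith
    interval_cases a
    · simp [hs0]
    · simp [pow_succ]
      nlinarith
    · simp [pow_succ]
      nlinarith
    · simp [pow_succ]
      nlinarith [mul_pos hs0 (sub_pos.2 hs2)]
  · intro d c
    have h0 := e0 d c
    have h2 := e2 d c
    have h1 := e1 d c
    simp only [Finset.sum_range_succ, Finset.sum_range_zero, zero_add]
    interval_cases a
    · have a0 := one_le_bz_zero h0
      have a2 := one_le_bz_zero h2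
      have a1 := one_le_bz_one h1
      simp only [Nat.reduceSub] at a1 ⊢
      omega
    · have a0 := one_le_bz_zero h0
      have a2 := two_le_bz h2 h1
      omega
    · have a0 := one_le_bz_zero h0
      have a2 := one_le_bz_zero h2
      have a1 := one_le_bz_one h1
      simp only [Nat.reduceSub] at a1 ⊢
      omega
    · have a0 := two_le_bz h0 h1
      have a2 := one_le_bz_zero h2
      omega

/-- the third root of unity -/
noncomputable def om3 : ℂ := ⟨-1 / 2, √3 / 2⟩

lemma om3_sq : om3 ^ 2 = -1 - om3 := by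
  have h3 : √3 ^ 2 = 3 := Real.sq_sqrt (by norm_num)
  unfold om3
  apply Complex.ext
  · simp [pow_two]
    nlinarith
  · simp [pow_two]
    nlinarith

lemma om3_cube : om3 ^ 3 = 1 := by
  have : om3 ^ 3 = om3 ^ 2 * om3 := by ring
  rw [this, om3_sq]
  have : (-1 - om3) * om3 = -om3 - om3 ^ 2 := by ring
  rw [this, om3_sq]
  ring

lemma good_three (a : ℕ) (ha : 1 ≤ a) (ha3 : a ≤ 3) : Good om3 3 a := by
  have hs3 : 0 < √3 := by positivity
  have h3 : √3 ^ 2 = 3 := Real.sq_sqrt (by norm_num)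
  have e0 : ∀ (d : ℕ) (c : ℕ → ℝ), (derivative^[0] (comb om3 3 a d c)).eval 0 = 0 :=
    fun d c => eval_iter_zero (by simp) _ _ _ _
  have hκ : (1 + om3) ^ 2 = ((1 : ℝ) : ℂ) * om3 := by
    have : (1 + om3) ^ 2 = 1 + 2 * om3 + om3 ^ 2 := by ring
    rw [this, om3_sq]
    push_cast
    ring
  have hN : ((1 + om3) ^ 3).im = 0 := by
    have : (1 + om3) ^ 3 = -1 := by
      have : (1 + om3) ^ 3 = (1 + om3) ^ 2 * (1 + om3) := by ring
      rw [this, hκ]
      have : ((1 : ℝ) : ℂ) * om3 * (1 + om3) = om3 + om3 ^ 2 := by push_cast; ring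
      rw [this, om3_sq]
      ring
    rw [this]
    simp
  have e1 : ∀ (d : ℕ) (c : ℕ → ℝ), (derivative^[3 - a] (comb om3 3 a d c)).eval 1 = 0 :=
    fun d c => eval_iter_one (by norm_num) hκ hN ha3 _ _
  refine ⟨om3_cube, ha3, ?_, ?_⟩
  · intro s hs0 hs1
    have him : om3.im = √3 / 2 := rfl
    have hexp : ∀ x y : ℝ, ((x : ℂ) + y * om3).im = y * (√3 / 2) := by
      intro x y
      simp [him]
    interval_cases a
    · have : (1 + om3 * s) ^ 1 = ((1 : ℝ) : ℂ) + (s : ℝ) * om3 := by push_cast; ring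
      rw [this, hexp]
      positivity
    · have : (1 + om3 * s) ^ 2 = ((1 - s ^ 2 : ℝ) : ℂ) + ((2 * s - s ^ 2 : ℝ) : ℂ) * om3 := by
        have h : (1 + om3 * s) ^ 2 = 1 + 2 * om3 * s + om3 ^ 2 * s ^ 2 := by ring
        rw [h, om3_sq]
        push_cast
        ring
      rw [this, hexp]
      have : 0 < 2 * s - s ^ 2 := by nlinarith
      positivity
    · have : (1 + om3 * s) ^ 3 = ((1 - 3 * s ^ 2 + s ^ 3 : ℝ) : ℂ) +
          ((3 * s - 3 * s ^ 2 : ℝ) : ℂ) * om3 := by
        have h : (1 + om3 * s) ^ 3 = 1 + 3 * om3 * s + 3 * om3 ^ 2 * s ^ 2 + om3 ^ 3 * s ^ 3 := by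
          ring
        rw [h, om3_cube, om3_sq]
        push_cast
        ring
      rw [this, hexp]
      have : 0 < 3 * s - 3 * s ^ 2 := by nlinarith
      positivity
  · intro d c
    have h0 := e0 d c
    have h1 := e1 d c
    simp only [Finset.sum_range_succ, Finset.sum_range_zero, zero_add]
    interval_cases a
    · have a0 := one_le_bz_zero h0
      have a1 := one_le_bz_one h1
      simp only [Nat.reduceSub] at a1 ⊢
      omega
    · have a0 := one_le_bz_zero h0
      have a1 := one_le_bz_one h1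
      simp only [Nat.reduceSub] at a1 ⊢
      omega
    · have a0 := two_le_bz h0 h1
      omega

end Pool.Agent.W775.Berg
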