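import Pool.Agent.W775.Berg2

/-!
Zeros of polynomials orthogonal to the Chebyshev system.
-/

set_option autoImplicit false

open Polynomial

namespace Pool.Agent.W775.Berg

/-- A polynomial without zeros in `(0,1)` has constant sign there. -/
lemma const_sign (f : ℝ[X]) (h : ∀ x : ℝ, 0 < x → x < 1 → f.eval x ≠ 0) :
    ∃ e : ℝ, (e = 1 ∨ e = -1) ∧ ∀ x : ℝ, 0 < x → x < 1 → 0 < e * f.eval x := by
  have key : ∀ x y : ℝ, 0 < x → x < 1 → 0 < y → y < 1 → f.eval x < 0 → 0 < f.eval y → False := by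
    intro x y hx0 hx1 hy0 hy1 h1 h2
    have h3 := isPreconnected_Ioo (a := (0 : ℝ)) (b := 1) |>.intermediate_value
      (a := x) (b := y) ⟨hx0, hx1⟩ ⟨hy0, hy1⟩ (f.continuous.continuousOn)
    obtain ⟨z, ⟨hz0, hz1⟩, hz⟩ := h3 ⟨h1.le, h2.le⟩
    exact h z hz0 hz1 hz
  rcases lt_or_gt_of_ne (h (1 / 2) (by norm_num) (by norm_num)) with h1 | h1
  · refine ⟨-1, Or.inr rfl, fun x hx0 hx1 => ?_⟩
    rcases lt_or_gt_of_ne (h x hx0 hx1) with h2 | h2
    · linarith
    · exact absurd (key _ _ (by norm_num) (by norm_num) hx0 hx1 h1 h2) id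
  · refine ⟨1, Or.inl rfl, fun x hx0 hx1 => ?_⟩
    rcases lt_or_gt_of_ne (h x hx0 hx1) with h2 | h2
    · exact absurd (key _ _ hx0 hx1 (by norm_num) (by norm_num) h2 h1) id
    · linarith

/-- `S` records the sign changes of `g` in `(0,1)` -/
def SignSet (g : ℝ[X]) (S : Finset ℝ) : Prop :=
  (∀ x ∈ S, 0 < x ∧ x < 1) ∧
    ∃ e : ℝ, (e = 1 ∨ e = -1) ∧ ∀ x : ℝ, 0 < x → x < 1 → 0 ≤ e * (g.eval x * ∏ y ∈ S, (x - y))

lemma exists_signSet : ∀ (n : ℕ) (g : ℝ[X]), g ≠ 0 → g.natDegree ≤ n →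
    ∃ S : Finset ℝ, SignSet g S ∧ S.card ≤ n ∧ ∀ x ∈ S, g.eval x = 0 := by
  classical
  intro n
  induction n with
  | zero =>
    intro g hg hn
    obtain ⟨c, rfl⟩ := natDegree_eq_zero.1 (Nat.le_zero.1 hn)
    have hc : c ≠ 0 := by
      rintro rfl
      exact hg (by simp)
    obtain ⟨e, he, h⟩ := const_sign (C c) (fun x _ _ => by rw [eval_C]; exact hc)
    refine ⟨∅, ⟨by simp, e, he, fun x h0 h1 => ?_⟩, by simp, by simp⟩
    simpa using (h x h0 h1).le
  | succ n ih =>
    intro g hg hn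
    by_cases hz : ∃ x : ℝ, 0 < x ∧ x < 1 ∧ g.eval x = 0
    · obtain ⟨x₀, h0, h1, hx⟩ := hz
      obtain ⟨g₁, hg1⟩ := dvd_iff_isRoot.2 hx
      have hne1 : g₁ ≠ 0 := by
        rintro rfl
        exact hg (by rw [hg1, mul_zero])
      have hdeg : g₁.natDegree ≤ n := by
        have : g.natDegree = 1 + g₁.natDegree := by
          rw [hg1, natDegree_mul (X_sub_C_ne_zero x₀) hne1, natDegree_X_sub_C]
        omega
      obtain ⟨S, ⟨hS1, e, he, hS2⟩, hcard, hroot⟩ := ih g₁ hne1 hdeg
      have hroot' : ∀ x ∈ S, g.eval x = 0 := by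
        intro x hx'
        rw [hg1, eval_mul, hroot x hx', mul_zero]
      by_cases hmem : x₀ ∈ S
      · refine ⟨S.erase x₀, ⟨fun x hx' => hS1 x (Finset.mem_of_mem_erase hx'), e, he, ?_⟩, ?_,
          fun x hx' => hroot' x (Finset.mem_of_mem_erase hx')⟩
        · intro x hx0 hx1
          have h2 := hS2 x hx0 hx1
          rw [← Finset.mul_prod_erase _ _ hmem] at h2
          rw [hg1, eval_mul, eval_sub, eval_X, eval_C]
          calc 0 ≤ _ := h2
            _ = _ := by ring
        · have := Finset.card_erase_le (s := S) (a := x₀)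
          omega
      · refine ⟨insert x₀ S, ⟨?_, e, he, ?_⟩, ?_, ?_⟩
        · intro x hx'
          rcases Finset.mem_insert.1 hx' with rfl | h
          · exact ⟨h0, h1⟩
          · exact hS1 x h
        · intro x hx0 hx1
          have h2 := hS2 x hx0 hx1
          rw [Finset.prod_insert hmem, hg1, eval_mul, eval_sub, eval_X, eval_C]
          have h3 := mul_nonneg (sq_nonneg (x - x₀)) h2
          calc 0 ≤ _ := h3
            _ = _ := by ring
        · rw [Finset.card_insert_of_notMem hmem]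
          omega
        · intro x hx'
          rcases Finset.mem_insert.1 hx' with rfl | h
          · exact hx
          · exact hroot' x h
    · push Not at hz
      obtain ⟨e, he, h⟩ := const_sign g (fun x h0 h1 => hz x h0 h1)
      refine ⟨∅, ⟨by simp, e, he, fun x h0 h1 => ?_⟩, by simp, by simp⟩
      simpa using (h x h0 h1).le

lemma cnt_eq_card (f : ℝ[X]) :
    cnt f = Multiset.card (f.roots.filter (fun x => 0 < x ∧ x < 1)) := by
  classical
  rw [← Multiset.toFinset_sum_count_eq, Multiset.toFinset_filter]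
  unfold cnt rts
  apply Finset.sum_congr rfl
  intro x hx
  rw [Finset.mem_filter] at hx
  rw [Multiset.count_filter_of_pos (p := fun x => 0 < x ∧ x < 1) hx.2, count_roots]

lemma cnt_mul {f g : ℝ[X]} (h : f * g ≠ 0) : cnt (f * g) = cnt f + cnt g := by
  rw [cnt_eq_card, cnt_eq_card, cnt_eq_card, roots_mul h, Multiset.filter_add, Multiset.card_add]

lemma cnt_prod (S : Finset ℝ) (hS : ∀ x ∈ S, 0 < x ∧ x < 1) :
    cnt (∏ x ∈ S, (X - C x)) = S.card := by
  rw [cnt_eq_card, roots_prod_X_sub_C, Multiset.filter_eq_self.2 (fun x hx => hS x hx)]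
  rfl

lemma prod_dvd_of_roots {f : ℝ[X]} (hf : f ≠ 0) (S : Finset ℝ) (hS : ∀ x ∈ S, f.eval x = 0) :
    (∏ x ∈ S, (X - C x)) ∣ f := by
  have h := (Multiset.prod_X_sub_C_dvd_iff_le_roots hf S.val).2
    ((Multiset.le_iff_subset S.nodup).2 (fun x hx => (mem_roots hf).2 (hS x hx)))
  exact h

/-- a combination of the first `r + 1` functions vanishing at the `r` given points is the product
of linear factors and a factor of constant sign -/
lemma exists_comb {ω : ℂ} {N a : ℕ} (hg : Good ω N a) (hN : 1 ≤ N) (S : Finset ℝ)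
    (hS : ∀ x ∈ S, 0 < x ∧ x < 1) :
    ∃ (c : ℕ → ℝ) (f₂ : ℝ[X]) (e : ℝ), (e = 1 ∨ e = -1) ∧
      comb ω N a S.card c = (∏ x ∈ S, (X - C x)) * f₂ ∧
      ∀ x : ℝ, 0 < x → x < 1 → 0 < e * f₂.eval x := by
  classical
  set L : (Fin (S.card + 1) → ℝ) →ₗ[ℝ] (S → ℝ) :=
    { toFun := fun c x => ∑ l : Fin (S.card + 1), c l * (wp ω (a + N * l)).eval (x : ℝ)
      map_add' := by
        intro c c'
        ext x
        simp [add_mul, Finset.sum_add_distrib]
      map_smul' := by
        intro r c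
        ext x
        simp [Finset.mul_sum, mul_assoc] } with hL
  have hker : LinearMap.ker L ≠ ⊥ := by
    apply LinearMap.ker_ne_bot_of_finrank_lt
    simp
  obtain ⟨c, hc, hc0⟩ := (Submodule.ne_bot_iff _).1 hker
  rw [LinearMap.mem_ker] at hc
  set c' : ℕ → ℝ := fun l => if h : l < S.card + 1 then c ⟨l, h⟩ else 0 with hc'
  have hex : ∃ l, l ≤ S.card ∧ c' l ≠ 0 := by
    by_contra hcon
    push Not at hcon
    apply hc0
    ext ⟨l, hl⟩
    have := hcon l (by omega)
    simp only [hc', dif_pos hl] at this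
    simpa using this
  obtain ⟨hne, hcnt⟩ := cheb hg hN S.card c' hex
  have hvan : ∀ x ∈ S, (comb ω N a S.card c').eval x = 0 := by
    intro x hx
    have h1 := congrFun hc ⟨x, hx⟩
    simp only [hL, LinearMap.coe_mk, AddHom.coe_mk, Pi.zero_apply] at h1
    unfold comb
    rw [eval_finsetSum, Finset.sum_range, ← h1]
    apply Finset.sum_congr rfl
    intro l _
    have hl : (l : ℕ) < S.card + 1 := l.2
    simp only [hc', dif_pos hl, eval_mul, eval_C]
  obtain ⟨f₂, hf2⟩ := prod_dvd_of_roots hne S hvan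
  have hcnt2 : cnt f₂ = 0 := by
    have h1 := hcnt
    rw [hf2, cnt_mul (by rw [← hf2]; exact hne), cnt_prod S hS] at h1
    omega
  have hf20 : f₂ ≠ 0 := by
    rintro rfl
    exact hne (by rw [hf2, mul_zero])
  obtain ⟨e, he, hsign⟩ := const_sign f₂ (by
    intro x h0 h1 hx
    have h2 := rts_card_le f₂
    rw [hcnt2] at h2
    have h3 : x ∈ rts f₂ := (mem_rts hf20).2 ⟨hx, h0, h1⟩
    have h4 := Finset.card_pos.2 ⟨x, h3⟩
    omega)
  exact ⟨c', f₂, e, he, hf2, hsign⟩

/-- The main sign change lemma. -/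
theorem card_ge {ω : ℂ} {N k : ℕ} (hg : Good ω N (k + 1)) (hN : 1 ≤ N) (g : ℝ[X]) (hg0 : g ≠ 0)
    (j : ℕ) (horth : ∀ l, l < j →
      ∫ t in (0 : ℝ)..1, t ^ k * g.eval (t ^ N) * (wp ω (k + 1 + N * l)).eval (1 - t) = 0)
    (S : Finset ℝ) (hS : SignSet g S) : j ≤ S.card := by
  classical
  by_contra hcon
  push Not at hcon
  obtain ⟨hS1, e₁, he₁, hS2⟩ := hS
  have hN0 : N ≠ 0 := by omega
  -- the N-th roots
  set ρ : ℝ → ℝ := fun x => x ^ ((N : ℝ)⁻¹) with hρ
  have hρpow : ∀ x : ℝ, 0 ≤ x → (ρ x) ^ N = x := fun x hx => Real.rpow_inv_natCast_pow hx hN0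
  have hρ0 : ∀ x : ℝ, 0 < x → 0 < ρ x := fun x hx => Real.rpow_pos_of_pos hx _
  have hρ1 : ∀ x : ℝ, 0 < x → x < 1 → ρ x < 1 := by
    intro x hx hx1
    by_contra h
    push Not at h
    have := one_le_pow₀ (n := N) h
    rw [hρpow x hx.le] at this
    linarith
  set S' : Finset ℝ := S.image (fun x => 1 - ρ x) with hS'
  have hinj : Set.InjOn (fun x => 1 - ρ x) (S : Set ℝ) := by
    intro x hx y hy hxy
    have h1 : ρ x = ρ y := by simpa using hxy
    rw [← hρpow x (hS1 x hx).1.le, ← hρpow y (hS1 y hy).1.le, h1]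
  have hcard : S'.card = S.card := Finset.card_image_of_injOn hinj
  have hS'1 : ∀ x ∈ S', 0 < x ∧ x < 1 := by
    intro y hy
    obtain ⟨x, hx, rfl⟩ := Finset.mem_image.1 hy
    have h1 := hρ0 x (hS1 x hx).1
    have h2 := hρ1 x (hS1 x hx).1 (hS1 x hx).2
    exact ⟨by linarith, by linarith⟩
  obtain ⟨c, f₂, e₂, he₂, hcomb, hf2⟩ := exists_comb hg hN S' hS'1
  rw [hcard] at hcomb
  -- the product of the linear factors
  have hprod : ∀ t : ℝ, (comb ω N (k + 1) S.card c).eval (1 - t) =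
      (-1) ^ S.card * (∏ x ∈ S, (t - ρ x)) * f₂.eval (1 - t) := by
    intro t
    rw [hcomb, eval_mul, eval_prod, hS', Finset.prod_image hinj]
    congr 1
    rw [← Finset.prod_const, ← Finset.prod_mul_distrib]
    apply Finset.prod_congr rfl
    intro x _
    simp only [eval_sub, eval_X, eval_C]
    ring
  -- sign of the first factor
  have hsign1 : ∀ t : ℝ, 0 < t → t < 1 → 0 ≤ e₁ * (g.eval (t ^ N) * ∏ x ∈ S, (t - ρ x)) := by
    intro t ht0 ht1
    have htN0 : 0 < t ^ N := pow_pos ht0 N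
    have htN1 : t ^ N < 1 := pow_lt_one₀ ht0.le ht1 hN0
    have h1 := hS2 (t ^ N) htN0 htN1
    have h2 : 0 ≤ (∏ x ∈ S, (t - ρ x)) * ∏ x ∈ S, (t ^ N - x) := by
      rw [← Finset.prod_mul_distrib]
      apply Finset.prod_nonneg
      intro x hx
      have hx0 := hρ0 x (hS1 x hx).1
      have hxN := hρpow x (hS1 x hx).1.le
      rcases le_total t (ρ x) with h | h
      · have h3 : t ^ N ≤ x := by
          rw [← hxN]
          exact pow_le_pow_left₀ ht0.le h N
        exact mul_nonneg_of_nonpos_of_nonpos (by linarith) (by linarith)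
      · have h3 : x ≤ t ^ N := by
          rw [← hxN]
          exact pow_le_pow_left₀ hx0.le h N
        exact mul_nonneg (by linarith) (by linarith)
    by_cases h3 : ∏ x ∈ S, (t ^ N - x) = 0
    · obtain ⟨x, hx, hx'⟩ := Finset.prod_eq_zero_iff.1 h3
      have h4 : t = ρ x := by
        have h5 : t ^ N = (ρ x) ^ N := by rw [hρpow x (hS1 x hx).1.le]; linarith
        exact (pow_left_inj₀ ht0.le (hρ0 x (hS1 x hx).1).le hN0).1 h5
      rw [Finset.prod_eq_zero hx (by rw [h4]; ring), mul_zero, mul_zero]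
    · have h4 : 0 < (∏ x ∈ S, (t ^ N - x)) ^ 2 := by positivity
      have h5 : 0 ≤ (e₁ * (g.eval (t ^ N) * ∏ x ∈ S, (t - ρ x))) * (∏ x ∈ S, (t ^ N - x)) ^ 2 := by
        have h6 := mul_nonneg h1 h2
        calc 0 ≤ _ := h6
          _ = _ := by ring
      exact nonneg_of_mul_nonneg_left h5 h4
  -- the polynomial integrand
  set e : ℝ := e₁ * e₂ * (-1) ^ S.card with he
  have he0 : e ≠ 0 := by
    rw [he]
    refine mul_ne_zero (mul_ne_zero ?_ ?_) (pow_ne_zero _ (by norm_num))
    · rcases he₁ with h | h <;> rw [h] <;> norm_num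
    · rcases he₂ with h | h <;> rw [h] <;> norm_num
  set P : ℝ[X] := C e * (X ^ k * g.comp (X ^ N) * (comb ω N (k + 1) S.card c).comp (1 - X)) with hP
  have hPeval : ∀ t : ℝ, P.eval t = e * (t ^ k * g.eval (t ^ N) *
      (comb ω N (k + 1) S.card c).eval (1 - t)) := by
    intro t
    simp [hP]
  have hP0 : P ≠ 0 := by
    have h1 : g.comp (X ^ N) ≠ 0 := by
      intro h
      rw [comp_eq_zero_iff] at h
      rcases h with h | ⟨_, h⟩
      · exact hg0 h
      · have := congrArg natDegree h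
        rw [natDegree_X_pow, natDegree_C] at this
        exact hN0 this
    have h2 : (comb ω N (k + 1) S.card c).comp (1 - X) ≠ 0 := by
      intro h
      rw [comp_eq_zero_iff] at h
      have hf20 : f₂ ≠ 0 := by
        rintro rfl
        have := hf2 (1 / 2) (by norm_num) (by norm_num)
        simp at this
      rcases h with h | ⟨_, h⟩
      · rw [hcomb] at h
        rcases mul_eq_zero.1 h with h | h
        · exact (Finset.prod_ne_zero_iff.2 fun x _ => X_sub_C_ne_zero x) h
        · exact hf20 h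
      · have h3 := congrArg (fun p : ℝ[X] => p.coeff 1) h
        simp [coeff_one] at h3
    rw [hP]
    exact mul_ne_zero (C_ne_zero.2 he0) (mul_ne_zero (mul_ne_zero (pow_ne_zero _ X_ne_zero) h1) h2)
  have hPnonneg : ∀ t : ℝ, 0 < t → t < 1 → 0 ≤ P.eval t := by
    intro t ht0 ht1
    rw [hPeval, hprod]
    have h1 := hsign1 t ht0 ht1
    have h2 := hf2 (1 - t) (by linarith) (by linarith)
    have h3 : ((-1 : ℝ) ^ S.card) * (-1) ^ S.card = 1 := by
      rw [← mul_pow]; norm_num
    have h4 : e * (t ^ k * g.eval (t ^ N) * ((-1) ^ S.card * (∏ x ∈ S, (t - ρ x)) * f₂.eval (1 - t)))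
        = (((-1 : ℝ) ^ S.card) * (-1) ^ S.card) * (t ^ k *
          ((e₁ * (g.eval (t ^ N) * ∏ x ∈ S, (t - ρ x))) * (e₂ * f₂.eval (1 - t)))) := by
      rw [he]; ring
    rw [h4, h3, one_mul]
    exact mul_nonneg (pow_nonneg ht0.le _) (mul_nonneg h1 h2.le)
  have hint : ∫ t in (0 : ℝ)..1, P.eval t = 0 := by
    have h1 : ∀ t : ℝ, P.eval t = ∑ l ∈ Finset.range (S.card + 1), (e * c l) *
        (t ^ k * g.eval (t ^ N) * (wp ω (k + 1 + N * l)).eval (1 - t)) := by
      intro t
      rw [hPeval]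
      unfold comb
      rw [eval_finsetSum, Finset.mul_sum, Finset.mul_sum]
      apply Finset.sum_congr rfl
      intro l _
      rw [eval_mul, eval_C]
      ring
    simp_rw [h1]
    rw [intervalIntegral.integral_finsetSum]
    · apply Finset.sum_eq_zero
      intro l hl
      rw [Finset.mem_range] at hl
      rw [intervalIntegral.integral_const_mul, horth l (by omega), mul_zero]
    · intro l _
      apply Continuous.intervalIntegrable
      fun_prop
  have hpos : 0 < ∫ t in (0 : ℝ)..1, P.eval t := by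
    have hcl : ∀ t ∈ Set.Icc (0 : ℝ) 1, 0 ≤ P.eval t := by
      have h1 : closure (Set.Ioo (0 : ℝ) 1) ⊆ {t | 0 ≤ P.eval t} :=
        closure_minimal (fun t ht => hPnonneg t ht.1 ht.2)
          (isClosed_le continuous_const P.continuous)
      rw [closure_Ioo (by norm_num)] at h1
      exact h1
    apply intervalIntegral.integral_pos (by norm_num) P.continuous.continuousOn
      (fun t ht => hcl t ⟨ht.1.le, ht.2⟩)
    by_contra h
    push Not at h
    apply hP0
    apply Polynomial.eq_zero_of_infinite_isRoot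
    refine (Set.Icc_infinite (show (0 : ℝ) < 1 by norm_num)).mono ?_
    intro t ht
    exact le_antisymm (h t ht) (hcl t ht)
  linarith

end Pool.Agent.W775.Berg
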