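import Pool.Agent.W775.Berg3

/-!
Interlacing of the zeros of consecutive orthogonal polynomials.
-/

set_option autoImplicit false

open Polynomial

namespace Pool.Agent.W775.Berg

/-- orthogonality to the first `j` functions -/
def Orth (ω : ℂ) (N k j : ℕ) (g : ℝ[X]) : Prop :=
  ∀ l, l < j → ∫ t in (0 : ℝ)..1, t ^ k * g.eval (t ^ N) * (wp ω (k + 1 + N * l)).eval (1 - t) = 0

lemma orth_comb {ω : ℂ} {N k j : ℕ} {q q' : ℝ[X]} (h : Orth ω N k j q) (h' : Orth ω N k j q')
    (α β : ℝ) : Orth ω N k j (C α * q + C β * q') := by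
  intro l hl
  have h1 : ∀ t : ℝ, t ^ k * (C α * q + C β * q').eval (t ^ N) * (wp ω (k + 1 + N * l)).eval (1 - t)
      = α * (t ^ k * q.eval (t ^ N) * (wp ω (k + 1 + N * l)).eval (1 - t)) +
        β * (t ^ k * q'.eval (t ^ N) * (wp ω (k + 1 + N * l)).eval (1 - t)) := by
    intro t
    simp only [eval_add, eval_mul, eval_C]
    ring
  simp_rw [h1]
  rw [intervalIntegral.integral_add, intervalIntegral.integral_const_mul,
    intervalIntegral.integral_const_mul, h l hl, h' l hl]
  · ring
  · apply Continuous.intervalIntegrable; fun_prop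
  · apply Continuous.intervalIntegrable; fun_prop

/-- the Wronskian has no zero in `(0,1)` -/
lemma wronskian_ne_zero {ω : ℂ} {N k : ℕ} (hg : Good ω N (k + 1)) (hN : 1 ≤ N) {j : ℕ} (hj : 1 ≤ j)
    {q q' : ℝ[X]} (hq : q.Monic) (hqd : q.natDegree = j) (hq' : q'.Monic)
    (hqd' : q'.natDegree = j + 1) (h : Orth ω N k j q) (h' : Orth ω N k j q')
    (x : ℝ) :
    (q * derivative q' - derivative q * q').eval x ≠ 0 := by
  intro hW
  have hdet : (!![q.eval x, q'.eval x; (derivative q).eval x, (derivative q').eval x]).det = 0 := by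
    rw [Matrix.det_fin_two_of]
    rw [eval_sub, eval_mul, eval_mul] at hW
    linarith
  obtain ⟨v, hv, hv0⟩ := Matrix.exists_mulVec_eq_zero_iff.2 hdet
  have e0 := congrFun hv0 0
  have e1 := congrFun hv0 1
  simp [Matrix.mulVec, dotProduct, Fin.sum_univ_two] at e0 e1
  set g : ℝ[X] := C (v 0) * q + C (v 1) * q' with hgdef
  have hg0 : g ≠ 0 := by
    intro hz
    have hc1 : g.coeff (j + 1) = v 1 := by
      rw [hgdef, coeff_add, coeff_C_mul, coeff_C_mul,
        coeff_eq_zero_of_natDegree_lt (by omega : q.natDegree < j + 1)]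
      have : q'.coeff (j + 1) = 1 := by rw [← hqd']; exact hq'
      rw [this]; ring
    rw [hz, coeff_zero] at hc1
    have hc0 : g.coeff j = v 0 := by
      rw [hgdef, ← hc1]
      have : q.coeff j = 1 := by rw [← hqd]; exact hq
      simp [this]
    rw [hz, coeff_zero] at hc0
    apply hv
    ext i
    fin_cases i
    · exact hc0.symm
    · exact hc1.symm
  have hgx : g.eval x = 0 := by
    rw [hgdef, eval_add, eval_mul, eval_mul, eval_C, eval_C]
    linarith
  have hgx' : (derivative g).eval x = 0 := by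
    rw [hgdef, derivative_add, derivative_C_mul, derivative_C_mul, eval_add, eval_mul, eval_mul,
      eval_C, eval_C]
    linarith
  have hmult : 1 < g.rootMultiplicity x := by
    rw [one_lt_rootMultiplicity_iff_isRoot hg0]
    exact ⟨hgx, hgx'⟩
  have hdvd : (X - C x) ^ 2 ∣ g := by
    rw [← le_rootMultiplicity_iff hg0]
    omega
  obtain ⟨g₂, hg2⟩ := hdvd
  have hg20 : g₂ ≠ 0 := by
    rintro rfl
    exact hg0 (by rw [hg2, mul_zero])
  have hdeg : g₂.natDegree ≤ j - 1 := by
    have h1 : g.natDegree = 2 + g₂.natDegree := by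
      rw [hg2, natDegree_mul (pow_ne_zero _ (X_sub_C_ne_zero x)) hg20, natDegree_pow,
        natDegree_X_sub_C]
    have h2 : g.natDegree ≤ j + 1 := by
      rw [hgdef]
      refine (natDegree_add_le _ _).trans (max_le ?_ ?_)
      · refine (natDegree_C_mul_le _ _).trans (by omega)
      · refine (natDegree_C_mul_le _ _).trans (by omega)
    omega
  obtain ⟨S, ⟨hS1, e, he, hS2⟩, hcard, -⟩ := exists_signSet (j - 1) g₂ hg20 hdeg
  have hSg : SignSet g S := by
    refine ⟨hS1, e, he, fun y hy0 hy1 => ?_⟩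
    have h1 := mul_nonneg (sq_nonneg (y - x)) (hS2 y hy0 hy1)
    rw [hg2, eval_mul, eval_pow, eval_sub, eval_X, eval_C]
    calc 0 ≤ _ := h1
      _ = _ := by ring
  have := card_ge hg hN g hg0 j (orth_comb h h' _ _) S hSg
  omega

theorem interlace {ω : ℂ} {N k : ℕ} (hg : Good ω N (k + 1)) (hN : 1 ≤ N) {j : ℕ} (hj : 1 ≤ j)
    {q q' : ℝ[X]} (hq : q.Monic) (hqd : q.natDegree = j) (hq' : q'.Monic)
    (hqd' : q'.natDegree = j + 1) (h : Orth ω N k j q) (h' : Orth ω N k (j + 1) q') :
    ∃ t s : ℕ → ℝ, q = ∏ ν ∈ Finset.range j, (X - C (t ν)) ∧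
      q' = ∏ ν ∈ Finset.range (j + 1), (X - C (s ν)) ∧
      0 < s 0 ∧ s j < 1 ∧ ∀ ν, ν < j → s ν < t ν ∧ t ν < s (ν + 1) := by
  classical
  obtain ⟨S, hS, hcard, hroot⟩ := exists_signSet (j + 1) q' hq'.ne_zero hqd'.le
  have hcard' := card_ge hg hN q' hq'.ne_zero (j + 1) h' S hS
  have hcS : S.card = j + 1 := le_antisymm hcard hcard'
  have hprod : ∏ x ∈ S, (X - C x) = q' := by
    symm
    apply eq_of_monic_of_dvd_of_natDegree_le (monic_prod_of_monic _ _ fun x _ => monic_X_sub_C x)
      hq' (prod_dvd_of_roots hq'.ne_zero S hroot)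
    rw [natDegree_prod_of_monic _ _ fun x _ => monic_X_sub_C x]
    simp only [natDegree_X_sub_C, Finset.sum_const, smul_eq_mul, mul_one]
    omega
  set emb := S.orderEmbOfFin hcS with hemb
  set s : ℕ → ℝ := fun ν => if hν : ν < j + 1 then emb ⟨ν, hν⟩ else 0 with hs
  have hsval : ∀ i : Fin (j + 1), s i = emb i := by
    intro i
    simp only [hs, dif_pos i.2]
  have hsprod : q' = ∏ ν ∈ Finset.range (j + 1), (X - C (s ν)) := by
    rw [Finset.prod_range, ← hprod]
    have h1 : S = Finset.univ.image emb := (Finset.image_orderEmbOfFin_univ S hcS).symm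
    rw [h1, Finset.prod_image (fun a _ b _ hab => emb.injective hab)]
    apply Finset.prod_congr rfl
    intro i _
    rw [hsval]
  have hmono : ∀ μ ν : ℕ, μ < ν → ν < j + 1 → s μ < s ν := by
    intro μ ν hμν hν
    have h1 := hsval ⟨μ, by omega⟩
    have h2 := hsval ⟨ν, hν⟩
    simp only at h1 h2
    rw [h1, h2]
    exact emb.strictMono (by simpa using hμν)
  have hs01 : ∀ ν : ℕ, ν < j + 1 → 0 < s ν ∧ s ν < 1 := by
    intro ν hν
    have h1 := hsval ⟨ν, hν⟩
    simp only at h1
    rw [h1]
    exact hS.1 _ (Finset.orderEmbOfFin_mem S hcS _)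
  have hsroot : ∀ ν : ℕ, ν < j + 1 → q'.eval (s ν) = 0 := by
    intro ν hν
    rw [hsprod, eval_prod]
    exact Finset.prod_eq_zero (Finset.mem_range.2 hν) (by simp)
  -- the Wronskian has constant sign
  have horth' : Orth ω N k j q' := fun l hl => h' l (by omega)
  obtain ⟨e, he, hW⟩ := const_sign (q * derivative q' - derivative q * q')
    (fun x _ _ => wronskian_ne_zero hg hN hj hq hqd hq' hqd' h horth' x)
  have hee : e * e = 1 := by rcases he with h | h <;> rw [h] <;> norm_num
  have key : ∀ ν, ν < j → ∃ t, s ν < t ∧ t < s (ν + 1) ∧ q.eval t = 0 := by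
    intro ν hν
    have hlt := hmono ν (ν + 1) (by omega) (by omega)
    obtain ⟨ha0, ha1⟩ := hs01 ν (by omega)
    obtain ⟨hb0, hb1⟩ := hs01 (ν + 1) (by omega)
    have wa := hW (s ν) ha0 ha1
    have wb := hW (s (ν + 1)) hb0 hb1
    rw [eval_sub, eval_mul, eval_mul, hsroot ν (by omega), mul_zero, sub_zero] at wa
    rw [eval_sub, eval_mul, eval_mul, hsroot (ν + 1) (by omega), mul_zero, sub_zero] at wb
    -- factor q'
    set P : ℝ[X] := ∏ μ ∈ ((Finset.range (j + 1)).erase ν).erase (ν + 1), (X - C (s μ)) with hP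
    have hfac : q' = (X - C (s ν)) * ((X - C (s (ν + 1))) * P) := by
      rw [hsprod, hP, Finset.mul_prod_erase _ (fun μ => X - C (s μ)), Finset.mul_prod_erase _ (fun μ => X - C (s μ))]
      · exact Finset.mem_range.2 (by omega)
      · exact Finset.mem_erase.2 ⟨by omega, Finset.mem_range.2 (by omega)⟩
    have hda : (derivative q').eval (s ν) = (s ν - s (ν + 1)) * P.eval (s ν) := by
      rw [hfac, derivative_mul, derivative_X_sub_C]
      simp
    have hdb : (derivative q').eval (s (ν + 1)) = (s (ν + 1) - s ν) * P.eval (s (ν + 1)) := by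
      rw [hfac, derivative_mul, derivative_X_sub_C, derivative_mul, derivative_X_sub_C]
      simp
    have hPP : 0 < P.eval (s ν) * P.eval (s (ν + 1)) := by
      rw [hP, eval_prod, eval_prod, ← Finset.prod_mul_distrib]
      apply Finset.prod_pos
      intro μ hμ
      rw [Finset.mem_erase, Finset.mem_erase, Finset.mem_range] at hμ
      obtain ⟨h1, h2, h3⟩ := hμ
      simp only [eval_sub, eval_X, eval_C]
      rcases lt_or_gt_of_ne h2 with h4 | h4
      · have h5 := hmono μ ν h4 (by omega)
        have h6 := hmono μ (ν + 1) (by omega) (by omega)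
        exact mul_pos (by linarith) (by linarith)
      · have h5 := hmono (ν + 1) μ (by omega) h3
        exact mul_pos_of_neg_of_neg (by linarith) (by linarith)
    rw [hda] at wa
    rw [hdb] at wb
    have hqq : q.eval (s ν) * q.eval (s (ν + 1)) < 0 := by
      have h1 := mul_pos wa wb
      have h2 : e * (q.eval (s ν) * ((s ν - s (ν + 1)) * P.eval (s ν))) *
          (e * (q.eval (s (ν + 1)) * ((s (ν + 1) - s ν) * P.eval (s (ν + 1))))) =
          (e * e) * (-(q.eval (s ν) * q.eval (s (ν + 1)))) * ((s (ν + 1) - s ν) ^ 2 *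
            (P.eval (s ν) * P.eval (s (ν + 1)))) := by ring
      rw [h2, hee, one_mul] at h1
      have h3 : 0 < (s (ν + 1) - s ν) ^ 2 * (P.eval (s ν) * P.eval (s (ν + 1))) := by
        apply mul_pos _ hPP
        have : 0 < s (ν + 1) - s ν := by linarith
        positivity
      have h4 := (mul_pos_iff_of_pos_right h3).1 h1
      linarith
    have hIVT : ∃ t ∈ Set.Icc (s ν) (s (ν + 1)), q.eval t = 0 := by
      rcases mul_neg_iff.1 hqq with ⟨h1, h2⟩ | ⟨h1, h2⟩
      · have := intermediate_value_Icc' hlt.le (q.continuous.continuousOn)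
        obtain ⟨t, ht, ht'⟩ := this ⟨h2.le, h1.le⟩
        exact ⟨t, ht, ht'⟩
      · have := intermediate_value_Icc hlt.le (q.continuous.continuousOn)
        obtain ⟨t, ht, ht'⟩ := this ⟨h1.le, h2.le⟩
        exact ⟨t, ht, ht'⟩
    obtain ⟨t, ⟨ht1, ht2⟩, ht3⟩ := hIVT
    refine ⟨t, lt_of_le_of_ne ht1 ?_, lt_of_le_of_ne ht2 ?_, ht3⟩
    · rintro rfl
      rw [ht3, zero_mul] at hqq
      exact lt_irrefl _ hqq
    · rintro rfl
      rw [ht3, mul_zero] at hqq
      exact lt_irrefl _ hqq
  choose! t ht1 ht2 ht3 using key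
  have htmono : ∀ μ ν : ℕ, μ < ν → ν < j → t μ < t ν := by
    intro μ ν hμν hν
    have h1 := ht2 μ (by omega)
    have h2 := ht1 ν hν
    rcases Nat.lt_or_ge (μ + 1) ν with h3 | h3
    · have := hmono (μ + 1) ν h3 (by omega)
      linarith
    · obtain rfl : ν = μ + 1 := by omega
      linarith
  have htprod : q = ∏ ν ∈ Finset.range j, (X - C (t ν)) := by
    have hinj : Set.InjOn t (Finset.range j : Set ℕ) := by
      intro a ha b hb hab
      rw [Finset.coe_range, Set.mem_Iio] at ha hb
      rcases lt_trichotomy a b with h1 | h1 | h1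
      · have := htmono a b h1 hb; linarith
      · exact h1
      · have := htmono b a h1 ha; linarith
    rw [← Finset.prod_image (f := fun x => X - C x) hinj]
    apply eq_of_monic_of_dvd_of_natDegree_le (monic_prod_of_monic _ _ fun x _ => monic_X_sub_C x)
      hq (prod_dvd_of_roots hq.ne_zero _ _)
    · rw [natDegree_prod_of_monic _ _ fun x _ => monic_X_sub_C x]
      simp only [natDegree_X_sub_C, Finset.sum_const, smul_eq_mul, mul_one]
      rw [Finset.card_image_of_injOn hinj, Finset.card_range, hqd]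
    · intro x hx
      obtain ⟨ν, hν, rfl⟩ := Finset.mem_image.1 hx
      exact ht3 ν (Finset.mem_range.1 hν)
  exact ⟨t, s, htprod, hsprod, (hs01 0 (by omega)).1, (hs01 j (by omega)).2,
    fun ν hν => ⟨ht1 ν hν, ht2 ν hν⟩⟩

end Pool.Agent.W775.Berg
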