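import Pool.Agent.W775.Berg4

/-!
Area integrals of `z^m conj(z)^m'` over the regular triangle and the square.
-/

set_option autoImplicit false

open Polynomial MeasureTheory Set

namespace Pool.Agent.W775.Berg

/-- the polygon (closed) -/
def KK (N : ℕ) : Set ℂ := convexHull ℝ {w : ℂ | w ^ N = 1}

/-- a sector with vertex `0` -/
def Sec (ω : ℂ) : Set ℂ := {z | 0 ≤ z.im ∧ (z * (starRingEnd ℂ) ω).im < 0}

/-- what is needed about the root of unity -/
structure Geo (ω : ℂ) (N : ℕ) : Prop where
  prim : IsPrimitiveRoot ω N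
  three_le : 3 ≤ N
  norm : ‖ω‖ = 1
  im_pos : 0 < ω.im
  re_gt : 0 < 1 + ω.re
  part : ∀ z : ℂ, z ≠ 0 → ∑ i ∈ Finset.range N, (Sec ω).indicator (fun _ => (1 : ℂ)) (ω ^ i * z) = 1
  zero_mem : (0 : ℂ) ∈ KK N
  bound : ∀ w : ℂ, w ^ N = 1 → (w * (1 + (starRingEnd ℂ) ω)).re ≤ 1 + ω.re

variable {ω : ℂ} {N : ℕ}

lemma Geo.pow (h : Geo ω N) : ω ^ N = 1 := h.prim.pow_eq_one

lemma Geo.mul_conj (h : Geo ω N) : ω * (starRingEnd ℂ) ω = 1 := by
  rw [Complex.mul_conj, Complex.normSq_eq_norm_sq, h.norm]
  simp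

lemma Geo.conj_mul (h : Geo ω N) : (starRingEnd ℂ) ω * ω = 1 := by
  rw [mul_comm, h.mul_conj]

lemma Geo.sq (h : Geo ω N) : ω.re ^ 2 + ω.im ^ 2 = 1 := by
  have h1 := h.norm
  rw [Complex.norm_eq_sqrt_sq_add_sq] at h1
  have h2 := Real.sqrt_eq_one.1 h1
  exact h2

lemma isCompact_KK (h : 0 < N) : IsCompact (KK N) := by
  apply Set.Finite.isCompact_convexHull
  have h1 : {w : ℂ | w ^ N = 1} ⊆ (Polynomial.nthRoots N (1 : ℂ)).toFinset := by
    intro w hw
    simp only [Finset.mem_coe, Multiset.mem_toFinset]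
    rw [mem_nthRoots h]
    exact hw
  exact (Finset.finite_toSet _).subset h1

lemma convex_KK : Convex ℝ (KK N) := convex_convexHull ℝ _

lemma interior_ae (h : 0 < N) : interior (KK N) =ᵐ[volume] KK N := by
  have hcl : IsClosed (KK N) := (isCompact_KK h).isClosed
  have h1 : volume (frontier (KK N)) = 0 := convex_KK.addHaar_frontier volume
  have h2 : KK N \ interior (KK N) = frontier (KK N) := hcl.frontier_eq.symm
  exact ae_eq_set.2 ⟨by rw [sdiff_eq_empty.2 interior_subset, measure_empty], by rw [h2, h1]⟩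

lemma one_mem_KK : (1 : ℂ) ∈ KK N := subset_convexHull ℝ _ (by simp)

lemma Geo.om_mem (h : Geo ω N) : ω ∈ KK N := subset_convexHull ℝ _ h.pow

/-- rotation by `ω` maps the polygon to itself -/
lemma Geo.preimage (h : Geo ω N) : (fun z => ω * z) ⁻¹' (KK N) = KK N := by
  set f : ℂ →ₗ[ℝ] ℂ := LinearMap.mulLeft ℝ ω with hf
  set g : ℂ →ₗ[ℝ] ℂ := LinearMap.mulLeft ℝ ((starRingEnd ℂ) ω) with hg
  have hconj : ((starRingEnd ℂ) ω) ^ N = 1 := by
    rw [← map_pow, h.pow, map_one]
  have e1 : f '' (KK N) ⊆ KK N := by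
    rw [KK, LinearMap.image_convexHull]
    apply convexHull_mono
    rintro _ ⟨w, hw, rfl⟩
    simp only [mem_ofPred_eq] at hw ⊢
    rw [hf, LinearMap.mulLeft_apply, mul_pow, h.pow, hw, one_mul]
  have e2 : g '' (KK N) ⊆ KK N := by
    rw [KK, LinearMap.image_convexHull]
    apply convexHull_mono
    rintro _ ⟨w, hw, rfl⟩
    simp only [mem_ofPred_eq] at hw ⊢
    rw [hg, LinearMap.mulLeft_apply, mul_pow, hconj, hw, one_mul]
  ext z
  constructor
  · intro hz
    have h1 : g (ω * z) ∈ KK N := e2 ⟨_, hz, rfl⟩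
    rw [hg, LinearMap.mulLeft_apply, ← mul_assoc, h.conj_mul, one_mul] at h1
    exact h1
  · intro hz
    have h1 : f z ∈ KK N := e1 ⟨_, hz, rfl⟩
    rw [hf, LinearMap.mulLeft_apply] at h1
    exact h1

/-- rotation invariance of the integral -/
lemma Geo.integral_rot (h : Geo ω N) (F : ℂ → ℂ) :
    ∫ z in KK N, F (ω * z) = ∫ z in KK N, F z := by
  set a : Circle := ⟨ω, mem_sphere_zero_iff_norm.2 h.norm⟩ with ha
  have h1 : MeasurePreserving (rotation a) volume volume := (rotation a).measurePreserving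
  have h2 : MeasurableEmbedding (rotation a) := (rotation a).toHomeomorph.measurableEmbedding
  have h3 := h1.setIntegral_preimage_emb h2 F (KK N)
  have hrot : ∀ z : ℂ, (rotation a) z = ω * z := fun z => rotation_apply a z
  have h4 : (rotation a) ⁻¹' (KK N) = KK N := by
    conv_rhs => rw [← h.preimage]
    ext z
    rw [mem_preimage, hrot]
    rfl
  rw [h4] at h3
  simp_rw [hrot] at h3
  exact h3

lemma Geo.integral_rot_pow (h : Geo ω N) (F : ℂ → ℂ) (i : ℕ) :
    ∫ z in KK N, F (ω ^ i * z) = ∫ z in KK N, F z := by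
  induction i with
  | zero => simp
  | succ i ih =>
    rw [← ih, ← h.integral_rot (fun z => F (ω ^ i * z))]
    congr 1
    ext z
    congr 1
    ring

lemma measurableSet_Sec : MeasurableSet (Sec ω) := by
  apply MeasurableSet.inter
  · exact measurableSet_le measurable_const Complex.measurable_im
  · exact measurableSet_lt (Complex.measurable_im.comp (measurable_id.mul_const _)) measurable_const

/-- reduction to one sector -/
lemma Geo.integral_sector (h : Geo ω N) (F : ℂ → ℂ) (hF : Continuous F)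
    (hinv : ∀ z, F (ω * z) = F z) :
    ∫ z in KK N, F z = N * ∫ z in KK N, (Sec ω).indicator F z := by
  have hN : 0 < N := by have := h.three_le; omega
  have hinv' : ∀ (i : ℕ) (z : ℂ), F (ω ^ i * z) = F z := by
    intro i
    induction i with
    | zero => simp
    | succ i ih =>
      intro z
      have : ω ^ (i + 1) * z = ω * (ω ^ i * z) := by ring
      rw [this, hinv, ih]
  have hint : IntegrableOn F (KK N) volume := hF.continuousOn.integrableOn_compact (isCompact_KK hN)
  have h1 : ∫ z in KK N, F z = ∫ z in KK N, ∑ i ∈ Finset.range N, (Sec ω).indicator F (ω ^ i * z) := by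
    apply integral_congr_ae
    have h2 : ∀ᵐ z : ℂ ∂(volume.restrict (KK N)), z ≠ 0 := by
      apply ae_restrict_of_ae
      rw [ae_iff]
      simp
    filter_upwards [h2] with z hz
    have h3 := h.part z hz
    have h4 : ∀ i, (Sec ω).indicator F (ω ^ i * z) =
        (Sec ω).indicator (fun _ => (1 : ℂ)) (ω ^ i * z) * F z := by
      intro i
      by_cases hm : ω ^ i * z ∈ Sec ω
      · rw [indicator_of_mem hm, indicator_of_mem hm, hinv', one_mul]
      · rw [indicator_of_notMem hm, indicator_of_notMem hm, zero_mul]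
    simp_rw [h4]
    rw [← Finset.sum_mul, h3, one_mul]
  rw [h1, integral_finsetSum]
  · have h5 : ∀ i ∈ Finset.range N, ∫ z in KK N, (Sec ω).indicator F (ω ^ i * z) =
        ∫ z in KK N, (Sec ω).indicator F z := fun i _ => h.integral_rot_pow _ i
    rw [Finset.sum_congr rfl h5]
    simp
  · intro i _
    have hcont : Continuous fun z : ℂ => ω ^ i * z := by fun_prop
    have h6 : (fun z => (Sec ω).indicator F (ω ^ i * z)) =
        ((fun z => ω ^ i * z) ⁻¹' (Sec ω)).indicator F := by
      ext z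
      by_cases hm : ω ^ i * z ∈ Sec ω
      · rw [indicator_of_mem hm, indicator_of_mem (by exact hm), hinv']
      · rw [indicator_of_notMem hm, indicator_of_notMem (by exact hm)]
    rw [h6]
    exact hint.indicator (hcont.measurable measurableSet_Sec)

/-- membership in the triangle -/
lemma Geo.mem_iff (h : Geo ω N) (u v : ℝ) :
    ((u : ℂ) + v * ω ∈ KK N ∩ Sec ω) ↔ 0 < u ∧ 0 ≤ v ∧ u + v ≤ 1 := by
  have him : ((u : ℂ) + v * ω).im = v * ω.im := by simp
  have him2 : (((u : ℂ) + v * ω) * (starRingEnd ℂ) ω).im = -(u * ω.im) := by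
    have : ((u : ℂ) + v * ω) * (starRingEnd ℂ) ω = u * (starRingEnd ℂ) ω + v * (ω * (starRingEnd ℂ) ω) := by
      ring
    rw [this, h.mul_conj]
    simp
  have hpos := h.im_pos
  have hsec : ((u : ℂ) + v * ω ∈ Sec ω) ↔ 0 < u ∧ 0 ≤ v := by
    simp only [Sec, mem_ofPred_eq]
    rw [him, him2]
    constructor
    · rintro ⟨h1, h2⟩
      constructor
      · have : 0 < u * ω.im := by linarith
        exact (mul_pos_iff_of_pos_right hpos).1 this
      · exact nonneg_of_mul_nonneg_left h1 hpos
    · rintro ⟨h1, h2⟩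
      exact ⟨mul_nonneg h2 hpos.le, by linarith [mul_pos h1 hpos]⟩
  rw [mem_inter_iff, hsec]
  constructor
  · rintro ⟨h1, h2, h3⟩
    refine ⟨h2, h3, ?_⟩
    -- the supporting half plane
    have hhalf : KK N ⊆ {z : ℂ | (z * (1 + (starRingEnd ℂ) ω)).re ≤ 1 + ω.re} := by
      apply convexHull_min
      · intro w hw
        exact h.bound w hw
      · have hlin : IsLinearMap ℝ (fun z : ℂ => (z * (1 + (starRingEnd ℂ) ω)).re) := by
          constructor
          · intro x y
            rw [add_mul, Complex.add_re]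
          · intro c x
            rw [Complex.real_smul, mul_assoc, Complex.re_ofReal_mul, smul_eq_mul]
        exact convex_halfSpace_le hlin _
    have h4 := hhalf h1
    simp only [mem_ofPred_eq] at h4
    have h5 : (((u : ℂ) + v * ω) * (1 + (starRingEnd ℂ) ω)) =
        u * (1 + (starRingEnd ℂ) ω) + v * (ω + ω * (starRingEnd ℂ) ω) := by ring
    rw [h5, h.mul_conj] at h4
    simp only [Complex.add_re, Complex.re_ofReal_mul, Complex.one_re, Complex.conj_re] at h4
    have h6 : (u + v) * (1 + ω.re) ≤ 1 * (1 + ω.re) := by linarith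
    exact le_of_mul_le_mul_right h6 h.re_gt
  · rintro ⟨h1, h2, h3⟩
    refine ⟨?_, h1, h2⟩
    have h4 : (u : ℂ) + v * ω = (1 - u - v) • (0 : ℂ) + u • (1 : ℂ) + v • ω := by
      simp
    rw [h4]
    have := convex_KK (N := N) |>.sum_mem (t := Finset.univ) (w := ![1 - u - v, u, v])
      (z := ![0, 1, ω]) (by
        intro i _
        fin_cases i
        · simp; linarith
        · simp [h1.le]
        · simp [h2]) (by simp [Fin.sum_univ_three]; ring) (by
        intro i _
        fin_cases i
        · exact h.zero_mem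
        · exact one_mem_KK
        · exact h.om_mem)
    simpa [Fin.sum_univ_three] using this

end Pool.Agent.W775.Berg
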