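import Pool.Agent.W775.Berg5

/-!
Area integrals of `z^m conj(z)^m'` over the regular triangle and the square, continued.
-/

set_option autoImplicit false

open Polynomial MeasureTheory Set

namespace Pool.Agent.W775.Berg

/-- the standard triangle -/
def Tri : Set (ℝ × ℝ) := {p | 0 < p.1 ∧ 0 ≤ p.2 ∧ p.1 + p.2 ≤ 1}

lemma measurableSet_Tri : MeasurableSet Tri := by
  apply MeasurableSet.inter
  · exact measurableSet_lt measurable_const measurable_fst
  apply MeasurableSet.inter
  · exact measurableSet_le measurable_const measurable_snd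
  · exact measurableSet_le (measurable_fst.add measurable_snd) measurable_const

lemma integrableOn_Tri {h : ℝ × ℝ → ℂ} (hc : Continuous h) : IntegrableOn h Tri volume := by
  have h1 : IntegrableOn h (Icc (0 : ℝ) 1 ×ˢ Icc (0 : ℝ) 1) volume :=
    hc.continuousOn.integrableOn_compact (isCompact_Icc.prod isCompact_Icc)
  apply h1.mono_set
  rintro ⟨u, v⟩ ⟨h2, h3, h4⟩
  simp only at h2 h3 h4
  exact ⟨⟨h2.le, by linarith⟩, ⟨h3, by linarith⟩⟩

lemma integrable_ind {h : ℝ × ℝ → ℂ} (hc : Continuous h) :
    Integrable (Tri.indicator h) (volume.prod volume) := by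
  have := (integrable_indicator_iff measurableSet_Tri).2 (integrableOn_Tri hc)
  exact this

lemma tri_first {h : ℝ × ℝ → ℂ} (hc : Continuous h) :
    ∫ p in Tri, h p = ∫ v in (0 : ℝ)..1, ∫ u in (0 : ℝ)..(1 - v), h (u, v) := by
  rw [← integral_indicator measurableSet_Tri]
  have h0 : ∫ p, Tri.indicator h p = ∫ v : ℝ, ∫ u : ℝ, Tri.indicator h (u, v) :=
    integral_prod_symm _ (integrable_ind hc)
  rw [h0, intervalIntegral.integral_of_le zero_le_one, ← integral_Icc_eq_integral_Ioc,
    ← integral_indicator measurableSet_Icc]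
  congr 1
  ext v
  by_cases hv : v ∈ Icc (0 : ℝ) 1
  · rw [indicator_of_mem hv, intervalIntegral.integral_of_le (by linarith [hv.2]),
      ← integral_indicator measurableSet_Ioc]
    congr 1
    ext u
    by_cases hu : u ∈ Ioc (0 : ℝ) (1 - v)
    · rw [indicator_of_mem hu, indicator_of_mem]
      exact ⟨hu.1, hv.1, by simp only; linarith [hu.2]⟩
    · rw [indicator_of_notMem hu, indicator_of_notMem]
      rintro ⟨h1, h2, h3⟩
      exact hu ⟨h1, by simp only at h3; linarith⟩
  · rw [indicator_of_notMem hv]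
    have : ∀ u : ℝ, Tri.indicator h (u, v) = 0 := by
      intro u
      rw [indicator_of_notMem]
      rintro ⟨h1, h2, h3⟩
      simp only at h1 h2 h3
      exact hv ⟨h2, by linarith⟩
    simp_rw [this]
    simp

lemma tri_second {h : ℝ × ℝ → ℂ} (hc : Continuous h) :
    ∫ p in Tri, h p = ∫ u in (0 : ℝ)..1, ∫ v in (0 : ℝ)..(1 - u), h (u, v) := by
  rw [← integral_indicator measurableSet_Tri]
  have h0 : ∫ p, Tri.indicator h p = ∫ u : ℝ, ∫ v : ℝ, Tri.indicator h (u, v) :=
    integral_prod _ (integrable_ind hc)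
  rw [h0, intervalIntegral.integral_of_le zero_le_one,
    ← integral_indicator measurableSet_Ioc]
  congr 1
  ext u
  by_cases hu : u ∈ Ioc (0 : ℝ) 1
  · rw [indicator_of_mem hu, intervalIntegral.integral_of_le (by linarith [hu.2]),
      ← integral_Icc_eq_integral_Ioc, ← integral_indicator measurableSet_Icc]
    congr 1
    ext v
    by_cases hv : v ∈ Icc (0 : ℝ) (1 - u)
    · rw [indicator_of_mem hv, indicator_of_mem]
      exact ⟨hu.1, hv.1, by simp only; linarith [hv.2]⟩
    · rw [indicator_of_notMem hv, indicator_of_notMem]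
      rintro ⟨h1, h2, h3⟩
      exact hv ⟨h2, by simp only at h3; linarith⟩
  · rw [indicator_of_notMem hu]
    have : ∀ v : ℝ, Tri.indicator h (u, v) = 0 := by
      intro v
      rw [indicator_of_notMem]
      rintro ⟨h1, h2, h3⟩
      simp only at h1 h2 h3
      exact hu ⟨h1, by linarith⟩
    simp_rw [this]
    simp

variable {ω : ℂ} {N : ℕ}

/-- change of variables -/
lemma Geo.integral_change (h : Geo ω N) (G : ℂ → ℂ) (hG : Integrable G) :
    ∫ z : ℂ, G z = ω.im * ∫ v : ℝ, ∫ u : ℝ, G (u + v * ω) := by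
  have hσ := h.im_pos
  have hmp := Complex.volume_preserving_equiv_real_prod.symm
  have h1 : ∫ p : ℝ × ℝ, G (Complex.measurableEquivRealProd.symm p) = ∫ z : ℂ, G z :=
    hmp.integral_comp Complex.measurableEquivRealProd.symm.measurableEmbedding G
  have h2 : Integrable (fun p : ℝ × ℝ => G (Complex.measurableEquivRealProd.symm p))
      (volume.prod volume) :=
    (hmp.integrable_comp_emb Complex.measurableEquivRealProd.symm.measurableEmbedding).2 hG
  have h3 : ∫ p : ℝ × ℝ, G (Complex.measurableEquivRealProd.symm p) =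
      ∫ y : ℝ, ∫ x : ℝ, G (Complex.measurableEquivRealProd.symm (x, y)) :=
    integral_prod_symm _ h2
  rw [← h1, h3]
  have h4 : ∀ y : ℝ, ∫ x : ℝ, G (Complex.measurableEquivRealProd.symm (x, y)) =
      ∫ u : ℝ, G (u + (ω.im⁻¹ * y : ℝ) * ω) := by
    intro y
    rw [← integral_add_right_eq_self (μ := volume)
      (fun x : ℝ => G (Complex.measurableEquivRealProd.symm (x, y))) (ω.im⁻¹ * y * ω.re)]
    congr 1
    ext u
    congr 1
    rw [Complex.measurableEquivRealProd_symm_apply]
    apply Complex.ext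
    · simp
    · simp
      field_simp
  simp_rw [h4]
  have h5 := Measure.integral_comp_mul_left
    (fun v : ℝ => ∫ u : ℝ, G (u + (v : ℝ) * ω)) (ω.im⁻¹)
  rw [h5, inv_inv, abs_of_pos hσ]
  simp

lemma Geo.integral_tri (h : Geo ω N) (F : ℂ → ℂ) (hF : Continuous F) :
    ∫ z in KK N, (Sec ω).indicator F z = ω.im * ∫ p in Tri, F (p.1 + p.2 * ω) := by
  have hN : 0 < N := by have := h.three_le; omega
  have hK : MeasurableSet (KK N) := (isCompact_KK hN).measurableSet
  rw [← integral_indicator hK]
  have hint : IntegrableOn F (KK N) volume := hF.continuousOn.integrableOn_compact (isCompact_KK hN)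
  have h1 : Integrable ((KK N).indicator ((Sec ω).indicator F)) := by
    rw [integrable_indicator_iff hK]
    exact hint.indicator measurableSet_Sec
  rw [h.integral_change _ h1, ← integral_indicator measurableSet_Tri]
  congr 1
  have hc : Continuous (fun p : ℝ × ℝ => F (p.1 + p.2 * ω)) := by fun_prop
  have h0 : ∫ p, Tri.indicator (fun p : ℝ × ℝ => F (p.1 + p.2 * ω)) p =
      ∫ v : ℝ, ∫ u : ℝ, Tri.indicator (fun p : ℝ × ℝ => F (p.1 + p.2 * ω)) (u, v) :=
    integral_prod_symm _ (integrable_ind hc)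
  rw [h0]
  congr 1
  ext v
  congr 1
  ext u
  by_cases hm : (u, v) ∈ Tri
  · have hm' : (u : ℂ) + v * ω ∈ KK N ∩ Sec ω := (h.mem_iff u v).2 hm
    rw [indicator_of_mem hm, indicator_of_mem hm'.1, indicator_of_mem hm'.2]
  · rw [indicator_of_notMem hm]
    by_cases h2 : (u : ℂ) + v * ω ∈ KK N
    · rw [indicator_of_mem h2, indicator_of_notMem]
      intro h3
      exact hm ((h.mem_iff u v).1 ⟨h2, h3⟩)
    · rw [indicator_of_notMem h2]

/-- a primitive of a polynomial -/
lemma exists_primitive (P : ℂ[X]) : ∃ Q : ℂ[X], Q.derivative = P := by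
  induction P using Polynomial.induction_on' with
  | add p q hp hq =>
    obtain ⟨P, hP⟩ := hp
    obtain ⟨Q, hQ⟩ := hq
    exact ⟨P + Q, by rw [derivative_add, hP, hQ]⟩
  | monomial n a =>
    refine ⟨monomial (n + 1) (a / (n + 1)), ?_⟩
    rw [derivative_monomial]
    have : ((n : ℂ) + 1) ≠ 0 := by exact_mod_cast Nat.succ_ne_zero n
    simp only [Nat.cast_add, Nat.cast_one, Nat.add_sub_cancel]
    congr 1
    field_simp

end Pool.Agent.W775.Berg
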