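import Pool.Agent.W775.Berg6

/-!
The moment formula.
-/

set_option autoImplicit false

open Polynomial MeasureTheory Set

namespace Pool.Agent.W775.Berg

variable {ω : ℂ} {N : ℕ}

lemma green_step (h : Geo ω N) (m m' : ℕ) (hmm : ω ^ m = ω ^ m') :
    ((m' : ℂ) + 1) * ((starRingEnd ℂ) ω - ω) *
      ∫ p in Tri, ((p.1 : ℂ) + p.2 * ω) ^ m * ((p.1 : ℂ) + p.2 * (starRingEnd ℂ) ω) ^ m' =
    (1 - ω) * ∫ u in (0 : ℝ)..1, ((u : ℂ) + (1 - u) * ω) ^ m *
      ((u : ℂ) + (1 - u) * (starRingEnd ℂ) ω) ^ (m' + 1) := by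
  set c : ℂ := (starRingEnd ℂ) ω with hc
  have hωc : ω * c = 1 := h.mul_conj
  -- partial derivatives
  set Φu : ℝ × ℝ → ℂ := fun p => m * ((p.1 : ℂ) + p.2 * ω) ^ (m - 1) * ((p.1 : ℂ) + p.2 * c) ^ (m' + 1)
    + (m' + 1) * ((p.1 : ℂ) + p.2 * ω) ^ m * ((p.1 : ℂ) + p.2 * c) ^ m' with hΦu
  set Φv : ℝ × ℝ → ℂ := fun p => m * ω * ((p.1 : ℂ) + p.2 * ω) ^ (m - 1) *
    ((p.1 : ℂ) + p.2 * c) ^ (m' + 1)
    + (m' + 1) * c * ((p.1 : ℂ) + p.2 * ω) ^ m * ((p.1 : ℂ) + p.2 * c) ^ m' with hΦv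
  have hcu : Continuous Φu := by rw [hΦu]; fun_prop
  have hcv : Continuous Φv := by rw [hΦv]; fun_prop
  have h1 : (m' + 1) * (c - ω) * ∫ p in Tri, ((p.1 : ℂ) + p.2 * ω) ^ m * ((p.1 : ℂ) + p.2 * c) ^ m'
      = (∫ p in Tri, Φv p) - ω * ∫ p in Tri, Φu p := by
    rw [← integral_const_mul, ← integral_const_mul, ← integral_sub]
    · congr 1
      ext p
      rw [hΦu, hΦv]
      ring
    · exact integrableOn_Tri hcv
    · exact (integrableOn_Tri hcu).const_mul _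
  rw [h1, tri_second hcv, tri_first hcu]
  -- the function
  set Φ : ℝ → ℝ → ℂ := fun u v => ((u : ℂ) + v * ω) ^ m * ((u : ℂ) + v * c) ^ (m' + 1) with hΦ
  have hderu : ∀ u v : ℝ, HasDerivAt (fun u : ℝ => Φ u v) (Φu (u, v)) u := by
    intro u v
    have e1 : HasDerivAt (fun u : ℝ => (u : ℂ) + v * ω) 1 u := by
      simpa using (Complex.ofRealCLM.hasDerivAt (x := u)).add_const ((v : ℂ) * ω)
    have e2 : HasDerivAt (fun u : ℝ => (u : ℂ) + v * c) 1 u := by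
      simpa using (Complex.ofRealCLM.hasDerivAt (x := u)).add_const ((v : ℂ) * c)
    refine ((e1.fun_pow m).fun_mul (e2.fun_pow (m' + 1))).congr_deriv ?_
    rw [hΦu]
    simp only [Nat.add_sub_cancel]
    push_cast
    ring
  have hderv : ∀ u v : ℝ, HasDerivAt (fun v : ℝ => Φ u v) (Φv (u, v)) v := by
    intro u v
    have e1 : HasDerivAt (fun v : ℝ => (u : ℂ) + v * ω) ω v := by
      simpa using ((Complex.ofRealCLM.hasDerivAt (x := v)).mul_const ω).const_add (u : ℂ)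
    have e2 : HasDerivAt (fun v : ℝ => (u : ℂ) + v * c) c v := by
      simpa using ((Complex.ofRealCLM.hasDerivAt (x := v)).mul_const c).const_add (u : ℂ)
    refine ((e1.fun_pow m).fun_mul (e2.fun_pow (m' + 1))).congr_deriv ?_
    rw [hΦv]
    simp only [Nat.add_sub_cancel]
    push_cast
    ring
  have hv : ∀ u : ℝ, ∫ v in (0 : ℝ)..(1 - u), Φv (u, v) = Φ u (1 - u) - Φ u 0 := by
    intro u
    apply intervalIntegral.integral_eq_sub_of_hasDerivAt (fun v _ => hderv u v)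
    apply Continuous.intervalIntegrable
    exact hcv.comp (by fun_prop)
  have hu : ∀ v : ℝ, ∫ u in (0 : ℝ)..(1 - v), Φu (u, v) = Φ (1 - v) v - Φ 0 v := by
    intro v
    apply intervalIntegral.integral_eq_sub_of_hasDerivAt (fun u _ => hderu u v)
    apply Continuous.intervalIntegrable
    exact hcu.comp (by fun_prop)
  simp_rw [hv, hu]
  have hcΦ : Continuous (fun p : ℝ × ℝ => Φ p.1 p.2) := by rw [hΦ]; fun_prop
  have k1 : Continuous fun u : ℝ => Φ u (1 - u) :=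
    hcΦ.comp (f := fun u : ℝ => (u, 1 - u)) (by fun_prop)
  have k2 : Continuous fun u : ℝ => Φ u 0 := hcΦ.comp (f := fun u : ℝ => (u, (0 : ℝ))) (by fun_prop)
  have k3 : Continuous fun v : ℝ => Φ (1 - v) v :=
    hcΦ.comp (f := fun u : ℝ => (1 - u, u)) (by fun_prop)
  have k4 : Continuous fun v : ℝ => Φ 0 v := hcΦ.comp (f := fun u : ℝ => ((0 : ℝ), u)) (by fun_prop)
  rw [intervalIntegral.integral_sub (k1.intervalIntegrable _ _) (k2.intervalIntegrable _ _),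
    intervalIntegral.integral_sub (k3.intervalIntegrable _ _) (k4.intervalIntegrable _ _)]
  have h5 : ∫ v in (0 : ℝ)..1, Φ (1 - v) v = ∫ u in (0 : ℝ)..1, Φ u (1 - u) := by
    have := intervalIntegral.integral_comp_sub_left (a := 0) (b := 1)
      (fun u : ℝ => Φ u (1 - u)) 1
    simp only [sub_sub_cancel, sub_self, sub_zero] at this
    exact this
  have h6 : ∫ u in (0 : ℝ)..1, Φ u 0 = ω * ∫ v in (0 : ℝ)..1, Φ 0 v := by
    rw [← intervalIntegral.integral_const_mul]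
    congr 1
    ext v
    simp only [hΦ, Complex.ofReal_zero, zero_mul, add_zero, zero_add, mul_pow]
    have : ω * (v ^ m * ω ^ m * (v ^ (m' + 1) * c ^ (m' + 1))) =
        v ^ m * v ^ (m' + 1) * (ω * ω ^ m * c ^ (m' + 1)) := by ring
    rw [this, hmm]
    have h7 : ω * ω ^ m' * c ^ (m' + 1) = 1 := by
      rw [← pow_succ', ← mul_pow, hωc, one_pow]
    rw [h7, mul_one]
  rw [h5, h6]
  have h8 : ∫ u in (0 : ℝ)..1, ((u : ℂ) + (1 - u) * ω) ^ m * ((u : ℂ) + (1 - u) * c) ^ (m' + 1) =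
      ∫ u in (0 : ℝ)..1, Φ u (1 - u) := by
    congr 1
    ext u
    simp only [hΦ]
    push_cast
    ring
  rw [h8]
  ring

lemma contour_step (h : Geo ω N) (m m' : ℕ) (hmm : ω ^ m = ω ^ m') :
    (1 - ω) * ∫ u in (0 : ℝ)..1, ((u : ℂ) + (1 - u) * ω) ^ m *
      ((u : ℂ) + (1 - u) * (starRingEnd ℂ) ω) ^ (m' + 1) =
    ∫ t in (0 : ℝ)..1, (t : ℂ) ^ m * ((1 + (starRingEnd ℂ) ω * (1 - t)) ^ (m' + 1) -
      (1 + ω * (1 - t)) ^ (m' + 1)) := by
  set c : ℂ := (starRingEnd ℂ) ω with hc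
  have hωc : ω * c = 1 := h.mul_conj
  obtain ⟨Q, hQ⟩ := exists_primitive (X ^ m * (C (1 + c) - C c * X) ^ (m' + 1))
  have hQe : ∀ z : ℂ, (derivative Q).eval z = z ^ m * (1 + c - c * z) ^ (m' + 1) := by
    intro z
    rw [hQ]
    simp
  -- along the side
  have e1 : (1 - ω) * ∫ u in (0 : ℝ)..1, ((u : ℂ) + (1 - u) * ω) ^ m *
      ((u : ℂ) + (1 - u) * c) ^ (m' + 1) = Q.eval 1 - Q.eval ω := by
    rw [← intervalIntegral.integral_const_mul]
    have h1 : ∀ u : ℝ, HasDerivAt (fun u : ℝ => Q.eval ((u : ℂ) + (1 - u) * ω))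
        ((1 - ω) * (((u : ℂ) + (1 - u) * ω) ^ m * ((u : ℂ) + (1 - u) * c) ^ (m' + 1))) u := by
      intro u
      have h2 : HasDerivAt (fun u : ℝ => (u : ℂ) + (1 - u) * ω) (1 + (0 - 1) * ω) u := by
        have h3 := Complex.ofRealCLM.hasDerivAt (x := u)
        exact h3.add (((hasDerivAt_const u (1 : ℂ)).sub h3).mul_const ω)
      refine ((Q.hasDerivAt ((u : ℂ) + (1 - u) * ω)).comp u h2).congr_deriv ?_
      rw [hQe]
      have h5 : 1 + c - c * ((u : ℂ) + (1 - u) * ω) = (u : ℂ) + (1 - u) * c := by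
        have : 1 + c - c * ((u : ℂ) + (1 - u) * ω) = 1 + c - c * u - (1 - u) * (ω * c) := by ring
        rw [this, hωc]
        ring
      rw [h5]
      ring
    rw [intervalIntegral.integral_eq_sub_of_hasDerivAt (fun u _ => h1 u)]
    · simp
    · apply Continuous.intervalIntegrable
      fun_prop
  -- along the segment [0,1]
  have e2 : ∫ t in (0 : ℝ)..1, (t : ℂ) ^ m * (1 + c * (1 - t)) ^ (m' + 1) =
      Q.eval 1 - Q.eval 0 := by
    have h1 : ∀ t : ℝ, HasDerivAt (fun t : ℝ => Q.eval (t : ℂ))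
        ((t : ℂ) ^ m * (1 + c * (1 - t)) ^ (m' + 1)) t := by
      intro t
      refine ((Q.hasDerivAt (t : ℂ)).comp t (Complex.ofRealCLM.hasDerivAt (x := t))).congr_deriv ?_
      rw [hQe]
      simp only [Complex.ofRealCLM_apply, Complex.ofReal_one, mul_one]
      congr 2
      ring
    rw [intervalIntegral.integral_eq_sub_of_hasDerivAt (fun u _ => h1 u)]
    · simp
    · apply Continuous.intervalIntegrable
      fun_prop
  -- along the segment [0,ω]
  have e3 : ∫ t in (0 : ℝ)..1, (t : ℂ) ^ m * (1 + ω * (1 - t)) ^ (m' + 1) =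
      Q.eval ω - Q.eval 0 := by
    have h1 : ∀ t : ℝ, HasDerivAt (fun t : ℝ => Q.eval ((t : ℂ) * ω))
        ((t : ℂ) ^ m * (1 + ω * (1 - t)) ^ (m' + 1)) t := by
      intro t
      have h2 : HasDerivAt (fun t : ℝ => (t : ℂ) * ω) (1 * ω) t :=
        (Complex.ofRealCLM.hasDerivAt (x := t)).mul_const ω
      refine ((Q.hasDerivAt ((t : ℂ) * ω)).comp t h2).congr_deriv ?_
      rw [hQe]
      have h5 : 1 + c - c * ((t : ℂ) * ω) = c * (1 + ω * (1 - t)) := by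
        have : c * (1 + ω * (1 - t)) = c + (ω * c) * (1 - t) := by ring
        have h6 : 1 + c - c * ((t : ℂ) * ω) = 1 + c - t * (ω * c) := by ring
        rw [this, h6, hωc]
        ring
      rw [h5, mul_pow, mul_pow, hmm]
      have h6 : ω ^ m' * c ^ (m' + 1) * ω = 1 := by
        have : ω ^ m' * c ^ (m' + 1) * ω = (ω * c) ^ (m' + 1) := by ring
        rw [this, hωc, one_pow]
      calc (t : ℂ) ^ m * ω ^ m' * (c ^ (m' + 1) * (1 + ω * (1 - t)) ^ (m' + 1)) * (1 * ω)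
          = (t : ℂ) ^ m * (1 + ω * (1 - t)) ^ (m' + 1) * (ω ^ m' * c ^ (m' + 1) * ω) := by ring
        _ = _ := by rw [h6, mul_one]
    rw [intervalIntegral.integral_eq_sub_of_hasDerivAt (fun u _ => h1 u)]
    · simp
    · apply Continuous.intervalIntegrable
      fun_prop
  rw [e1]
  have e4 : ∀ t : ℝ, (t : ℂ) ^ m * ((1 + c * (1 - t)) ^ (m' + 1) - (1 + ω * (1 - t)) ^ (m' + 1)) =
      (t : ℂ) ^ m * (1 + c * (1 - t)) ^ (m' + 1) - (t : ℂ) ^ m * (1 + ω * (1 - t)) ^ (m' + 1) :=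
    fun t => by ring
  simp_rw [e4]
  rw [intervalIntegral.integral_sub, e2, e3]
  · ring
  · apply Continuous.intervalIntegrable; fun_prop
  · apply Continuous.intervalIntegrable; fun_prop

/-- the one-dimensional integral -/
noncomputable def L1 (ω : ℂ) (m m' : ℕ) : ℝ :=
  ∫ t in (0 : ℝ)..1, t ^ m * (wp ω (m' + 1)).eval (1 - t)

lemma side_step (m m' : ℕ) :
    ∫ t in (0 : ℝ)..1, (t : ℂ) ^ m * ((1 + (starRingEnd ℂ) ω * (1 - t)) ^ (m' + 1) -
      (1 + ω * (1 - t)) ^ (m' + 1)) = -2 * Complex.I * (L1 ω m m' : ℂ) := by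
  unfold L1
  rw [← intervalIntegral.integral_ofReal, ← intervalIntegral.integral_const_mul]
  congr 1
  ext t
  rw [eval_wp]
  set w : ℂ := (1 + ω * ((1 - t : ℝ) : ℂ)) ^ (m' + 1) with hw
  have h1 : (1 + (starRingEnd ℂ) ω * (1 - t)) ^ (m' + 1) = (starRingEnd ℂ) w := by
    rw [hw]
    simp
  have h2 : (1 + ω * (1 - t)) ^ (m' + 1) = w := by
    rw [hw]
    push_cast
    ring
  rw [h1, h2]
  have h3 : (starRingEnd ℂ) w - w = -2 * Complex.I * w.im := by
    apply Complex.ext <;> simp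
    ring
  rw [h3]
  push_cast
  ring

theorem Geo.moment (h : Geo ω N) (m m' : ℕ) (hmm : ω ^ m = ω ^ m') :
    ∫ z in KK N, z ^ m * (starRingEnd ℂ) (z ^ m') = ((N / (m' + 1) * L1 ω m m' : ℝ) : ℂ) := by
  set F : ℂ → ℂ := fun z => z ^ m * (starRingEnd ℂ) (z ^ m') with hF
  have hFc : Continuous F := by
    rw [hF]
    exact (continuous_pow m).mul (Complex.continuous_conj.comp (continuous_pow m'))
  have hinv : ∀ z, F (ω * z) = F z := by
    intro z
    rw [hF]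
    simp only [mul_pow, map_mul, map_pow]
    rw [hmm]
    have h1 : ω ^ m' * z ^ m * ((starRingEnd ℂ) ω ^ m' * (starRingEnd ℂ) z ^ m') =
        (ω * (starRingEnd ℂ) ω) ^ m' * (z ^ m * (starRingEnd ℂ) z ^ m') := by ring
    rw [h1, h.mul_conj, one_pow, one_mul]
  rw [h.integral_sector F hFc hinv, h.integral_tri F hFc]
  have hm1 : ((m' : ℂ) + 1) ≠ 0 := by exact_mod_cast Nat.succ_ne_zero m'
  have h2 : ∀ p : ℝ × ℝ, F (p.1 + p.2 * ω) =
      ((p.1 : ℂ) + p.2 * ω) ^ m * ((p.1 : ℂ) + p.2 * (starRingEnd ℂ) ω) ^ m' := by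
    intro p
    rw [hF]
    simp
  simp_rw [h2]
  have h3 := green_step h m m' hmm
  rw [contour_step h m m' hmm, side_step] at h3
  have h4 : (starRingEnd ℂ) ω - ω = -2 * Complex.I * ω.im := by
    apply Complex.ext <;> simp
    ring
  rw [h4] at h3
  have h5 : (-2 * Complex.I) * (((m' : ℂ) + 1) * (ω.im * ∫ p in Tri, ((p.1 : ℂ) + p.2 * ω) ^ m *
      ((p.1 : ℂ) + p.2 * (starRingEnd ℂ) ω) ^ m')) = (-2 * Complex.I) * (L1 ω m m' : ℂ) := by
    rw [← h3]; ring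
  have h6 : (-2 * Complex.I) ≠ 0 := by simp
  have h7 := mul_left_cancel₀ h6 h5
  push_cast
  rw [div_mul_eq_mul_div, eq_div_iff hm1, ← h7]
  ring

theorem Geo.moment_zero (h : Geo ω N) (m m' : ℕ) (hmm : ω ^ m ≠ ω ^ m') :
    ∫ z in KK N, z ^ m * (starRingEnd ℂ) (z ^ m') = 0 := by
  have h1 := h.integral_rot (fun z => z ^ m * (starRingEnd ℂ) (z ^ m'))
  have h2 : ∀ z : ℂ, (ω * z) ^ m * (starRingEnd ℂ) ((ω * z) ^ m') =
      (ω ^ m * (starRingEnd ℂ) ω ^ m') * (z ^ m * (starRingEnd ℂ) (z ^ m')) := by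
    intro z
    simp only [mul_pow, map_mul, map_pow]
    ring
  simp_rw [h2] at h1
  rw [integral_const_mul] at h1
  have h3 : ω ^ m * (starRingEnd ℂ) ω ^ m' ≠ 1 := by
    intro h4
    apply hmm
    have h5 : ω ^ m * (starRingEnd ℂ) ω ^ m' * ω ^ m' = ω ^ m' := by rw [h4, one_mul]
    have h6 : ω ^ m * (starRingEnd ℂ) ω ^ m' * ω ^ m' = ω ^ m * (ω * (starRingEnd ℂ) ω) ^ m' := by ring
    rw [h6, h.mul_conj, one_pow, mul_one] at h5
    exact h5
  have h4 : (ω ^ m * (starRingEnd ℂ) ω ^ m' - 1) * ∫ z in KK N, z ^ m * (starRingEnd ℂ) (z ^ m') = 0 := by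
    rw [sub_mul, h1, one_mul, sub_self]
  rcases mul_eq_zero.1 h4 with h5 | h5
  · exact absurd (sub_eq_zero.1 h5) h3
  · exact h5

end Pool.Agent.W775.Berg
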