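import Pool.Agent.W775.Berg7

/-!
The two geometric cases and the orthogonality relations.
-/

set_option autoImplicit false

open Polynomial MeasureTheory Set

namespace Pool.Agent.W775.Berg

lemma ind_re (s : Set ℂ) (z : ℂ) :
    s.indicator (fun _ => (1 : ℂ)) z = 1 ∧ z ∈ s ∨ s.indicator (fun _ => (1 : ℂ)) z = 0 ∧ z ∉ s := by
  by_cases h : z ∈ s
  · exact Or.inl ⟨indicator_of_mem h _, h⟩
  · exact Or.inr ⟨indicator_of_notMem h _, h⟩

lemma geo_four : Geo Complex.I 4 := by
  refine ⟨?_, by norm_num, by simp, by simp, by simp, ?_, ?_, ?_⟩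
  · apply IsPrimitiveRoot.mk_of_lt _ (by norm_num) Complex.I_pow_four
    intro l h0 h4 h
    interval_cases l
    · rw [pow_one] at h
      have := congrArg Complex.im h
      simp at this
    · rw [Complex.I_sq] at h
      have := congrArg Complex.re h
      norm_num at this
    · rw [Complex.I_pow_three] at h
      have := congrArg Complex.im h
      simp at this
  · intro z hz
    have hne : ¬ (z.re = 0 ∧ z.im = 0) := fun h => hz (Complex.ext h.1 h.2)
    have hmem : ∀ w : ℂ, w ∈ Sec Complex.I ↔ 0 ≤ w.im ∧ 0 < w.re := by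
      intro w
      simp [Sec]
    have h0 : Complex.I ^ 0 * z ∈ Sec Complex.I ↔ 0 ≤ z.im ∧ 0 < z.re := by
      rw [hmem]; simp
    have h1 : Complex.I ^ 1 * z ∈ Sec Complex.I ↔ 0 ≤ z.re ∧ z.im < 0 := by
      rw [hmem]; simp
    have h2 : Complex.I ^ 2 * z ∈ Sec Complex.I ↔ z.im ≤ 0 ∧ z.re < 0 := by
      rw [hmem, Complex.I_sq]; simp
    have h3 : Complex.I ^ 3 * z ∈ Sec Complex.I ↔ z.re ≤ 0 ∧ 0 < z.im := by
      rw [hmem, Complex.I_pow_three]; simp
    simp only [Finset.sum_range_succ, Finset.sum_range_zero, zero_add]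
    rcases ind_re (Sec Complex.I) (Complex.I ^ 0 * z) with ⟨e0, m0⟩ | ⟨e0, m0⟩ <;>
    rcases ind_re (Sec Complex.I) (Complex.I ^ 1 * z) with ⟨e1, m1⟩ | ⟨e1, m1⟩ <;>
    rcases ind_re (Sec Complex.I) (Complex.I ^ 2 * z) with ⟨e2, m2⟩ | ⟨e2, m2⟩ <;>
    rcases ind_re (Sec Complex.I) (Complex.I ^ 3 * z) with ⟨e3, m3⟩ | ⟨e3, m3⟩ <;>
    rw [e0, e1, e2, e3] <;> rw [h0] at m0 <;> rw [h1] at m1 <;> rw [h2] at m2 <;> rw [h3] at m3 <;>
    first
    | norm_num; done
    | (exfalso
       rcases lt_trichotomy z.re 0 with hx | hx | hx <;> rcases lt_trichotomy z.im 0 with hy | hy | hy <;>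
       first
       | exact hne ⟨hx, hy⟩
       | (push Not at m0 m1 m2 m3; grind)
       | grind)
  · have h1 : (1 : ℂ) ∈ KK 4 := one_mem_KK
    have h2 : (-1 : ℂ) ∈ KK 4 := subset_convexHull ℝ _ (by simp; norm_num)
    have h3 := (convex_KK (N := 4)) h1 h2 (by norm_num : (0 : ℝ) ≤ 1 / 2)
      (by norm_num : (0 : ℝ) ≤ 1 / 2) (by norm_num)
    simpa using h3
  · intro w hw
    have h1 : (w - 1) * (w + 1) * ((w - Complex.I) * (w + Complex.I)) = 0 := by
      have : (w - 1) * (w + 1) * ((w - Complex.I) * (w + Complex.I)) =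
          (w ^ 2 - 1) * (w ^ 2 - Complex.I ^ 2) := by ring
      rw [this, Complex.I_sq]
      linear_combination hw
    rcases mul_eq_zero.1 h1 with h1 | h1
    · rcases mul_eq_zero.1 h1 with h1 | h1
      · have : w = 1 := by linear_combination h1
        rw [this]; simp
      · have : w = -1 := by linear_combination h1
        rw [this]; simp
    · rcases mul_eq_zero.1 h1 with h1 | h1
      · have : w = Complex.I := by linear_combination h1
        rw [this]; simp
      · have : w = -Complex.I := by linear_combination h1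
        rw [this]; simp

lemma geo_three : Geo om3 3 := by
  have hs3 : 0 < √3 := by positivity
  have h3 : √3 ^ 2 = 3 := Real.sq_sqrt (by norm_num)
  have hre : om3.re = -1 / 2 := rfl
  have him : om3.im = √3 / 2 := rfl
  refine ⟨?_, by norm_num, ?_, ?_, ?_, ?_, ?_, ?_⟩
  · apply IsPrimitiveRoot.mk_of_lt _ (by norm_num) om3_cube
    intro l h0 h4 h
    interval_cases l
    · rw [pow_one] at h
      have := congrArg Complex.re h
      rw [hre] at this
      norm_num at this
    · rw [om3_sq] at h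
      have := congrArg Complex.re h
      rw [Complex.sub_re, hre] at this
      norm_num at this
  · rw [Complex.norm_eq_sqrt_sq_add_sq, hre, him]
    rw [Real.sqrt_eq_one, div_pow (√3), h3]
    norm_num
  · rw [him]; positivity
  · rw [hre]; norm_num
  · intro z hz
    have hconj : (starRingEnd ℂ) om3 = -1 - om3 := by
      apply Complex.ext
      · simp [hre]; norm_num
      · simp [him]
    have e00 : (om3 * z).im = -1 / 2 * z.im + √3 / 2 * z.re := by
      rw [Complex.mul_im, hre, him]
    set a0 := z.im with ha0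
    set a1 := (om3 * z).im with ha1
    set a2 := (om3 ^ 2 * z).im with ha2
    have hsum : a0 + a1 + a2 = 0 := by
      rw [ha2, om3_sq]
      have : (-1 - om3) * z = -z - om3 * z := by ring
      rw [this, Complex.sub_im, Complex.neg_im]
      ring
    have hne : ¬ (a0 = 0 ∧ a1 = 0) := by
      rintro ⟨h, h'⟩
      apply hz
      rw [h, h'] at e00
      apply Complex.ext
      · have : √3 / 2 * z.re = 0 := by linarith
        rcases mul_eq_zero.1 this with h | h
        · exfalso; linarith
        · simpa using h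
      · simpa [ha0] using h
    have hmem : ∀ w : ℂ, w ∈ Sec om3 ↔ 0 ≤ w.im ∧ (om3 ^ 2 * w).im < 0 := by
      intro w
      rw [om3_sq, mul_comm, ← hconj]
      simp only [Sec, mem_ofPred_eq]
    have h0 : om3 ^ 0 * z ∈ Sec om3 ↔ 0 ≤ a0 ∧ a2 < 0 := by
      rw [hmem, pow_zero, one_mul]
    have h1 : om3 ^ 1 * z ∈ Sec om3 ↔ 0 ≤ a1 ∧ a0 < 0 := by
      rw [hmem, pow_one]
      have : om3 ^ 2 * (om3 * z) = om3 ^ 3 * z := by ring
      rw [this, om3_cube, one_mul]
    have h2 : om3 ^ 2 * z ∈ Sec om3 ↔ 0 ≤ a2 ∧ a1 < 0 := by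
      rw [hmem]
      have : om3 ^ 2 * (om3 ^ 2 * z) = om3 ^ 3 * (om3 * z) := by ring
      rw [this, om3_cube, one_mul]
    simp only [Finset.sum_range_succ, Finset.sum_range_zero, zero_add]
    rcases ind_re (Sec om3) (om3 ^ 0 * z) with ⟨e0, m0⟩ | ⟨e0, m0⟩ <;>
    rcases ind_re (Sec om3) (om3 ^ 1 * z) with ⟨e1, m1⟩ | ⟨e1, m1⟩ <;>
    rcases ind_re (Sec om3) (om3 ^ 2 * z) with ⟨e2, m2⟩ | ⟨e2, m2⟩ <;>
    rw [e0, e1, e2] <;> rw [h0] at m0 <;> rw [h1] at m1 <;> rw [h2] at m2 <;>
    first
    | norm_num; done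
    | (exfalso
       rcases lt_trichotomy a0 0 with hx | hx | hx <;> rcases lt_trichotomy a1 0 with hy | hy | hy <;>
       rcases lt_trichotomy a2 0 with hw | hw | hw <;>
       first
       | exact hne ⟨hx, hy⟩
       | linarith
       | grind)
  · have h1 : (1 : ℂ) ∈ KK 3 := one_mem_KK
    have h2 : om3 ∈ KK 3 := subset_convexHull ℝ _ om3_cube
    have h4 : om3 ^ 2 ∈ KK 3 := subset_convexHull ℝ _ (by
      show (om3 ^ 2) ^ 3 = 1
      rw [← pow_mul, mul_comm, pow_mul, om3_cube, one_pow])
    have := convex_KK (N := 3) |>.sum_mem (t := Finset.univ) (w := ![1 / 3, 1 / 3, 1 / 3])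
      (z := ![1, om3, om3 ^ 2]) (by
        intro i _
        fin_cases i <;> simp) (by simp [Fin.sum_univ_three]; norm_num) (by
        intro i _
        fin_cases i
        · exact h1
        · exact h2
        · exact h4)
    have h5 : ∑ i : Fin 3, (![1 / 3, 1 / 3, 1 / 3] : Fin 3 → ℝ) i • (![1, om3, om3 ^ 2] : Fin 3 → ℂ) i = 0 := by
      simp only [Fin.sum_univ_three]
      simp
      rw [om3_sq]
      ring
    rw [h5] at this
    exact this
  · intro w hw
    have hconj : (starRingEnd ℂ) om3 = -1 - om3 := by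
      apply Complex.ext
      · simp [hre]; norm_num
      · simp [him]
    have h1 : (w - 1) * ((w - om3) * (w - om3 ^ 2)) = 0 := by
      rw [om3_sq]
      have h4 : om3 ^ 2 = -1 - om3 := om3_sq
      linear_combination hw - (w - 1) * h4
    rw [hconj]
    rcases mul_eq_zero.1 h1 with h1 | h1
    · have : w = 1 := by linear_combination h1
      rw [this]
      simp [hre]
    · rcases mul_eq_zero.1 h1 with h1 | h1
      · have : w = om3 := by linear_combination h1
        rw [this]
        have h4 : om3 * (1 + (-1 - om3)) = - om3 ^ 2 := by ring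
        rw [h4, om3_sq]
        simp [hre]
        norm_num
      · have : w = om3 ^ 2 := by linear_combination h1
        rw [this]
        have h4 : om3 ^ 2 * (1 + (-1 - om3)) = - om3 ^ 3 := by ring
        rw [h4, om3_cube]
        simp [hre]
        norm_num

end Pool.Agent.W775.Berg
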